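import Mathlib

set_option autoImplicit false

/-!
# Divisor counts of products of fresh prime powers
-/

namespace Pool.Agent.Lib.MP_f85a7a_nt

open Finset

/-- the number of divisors of `n` -/
abbrev dv (n : ℕ) : ℕ := n.divisors.card

lemma dv_mul {m n : ℕ} (h : Nat.Coprime m n) : dv (m * n) = dv m * dv n :=
  Nat.Coprime.card_divisors_mul h

lemma dv_prime_pow {p : ℕ} (hp : p.Prime) (e : ℕ) : dv (p ^ e) = e + 1 := by
  simp [dv, Nat.divisors_prime_pow hp]

lemma dv_prod_prime_pow {ι : Type*} (S : Finset ι) (φ e : ι → ℕ)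
    (hφ : ∀ i ∈ S, (φ i).Prime) (hinj : Set.InjOn φ S) :
    dv (∏ i ∈ S, φ i ^ e i) = ∏ i ∈ S, (e i + 1) := by
  classical
  induction S using Finset.induction_on with
  | empty => simp [dv]
  | insert a S ha ih =>
    rw [prod_insert ha, prod_insert ha]
    have hcop : Nat.Coprime (φ a ^ e a) (∏ i ∈ S, φ i ^ e i) := by
      apply Nat.Coprime.prod_right
      intro i hi
      apply Nat.Coprime.pow
      rw [Nat.coprime_primes (hφ a (mem_insert_self _ _)) (hφ i (mem_insert_of_mem hi))]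
      intro heq
      have := hinj (by simp) (by simp [hi]) heq
      exact ha (this ▸ hi)
    rw [dv_mul hcop, dv_prime_pow (hφ a (mem_insert_self _ _)), ih]
    · intro i hi; exact hφ i (mem_insert_of_mem hi)
    · intro x hx y hy hxy
      exact hinj (by simp at hx ⊢; right; exact hx) (by simp at hy ⊢; right; exact hy) hxy

/-- An increasing sequence of primes beyond `M` with exponential growth. -/
lemma exists_prime_seq (M : ℕ) (hM : 1 ≤ M) :
    ∃ p : ℕ → ℕ, StrictMono p ∧ ∀ i, (p i).Prime ∧ M < p i ∧ p i ≤ 2 ^ (i + 1) * M := by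
  have hB : ∀ n : ℕ, n ≠ 0 → ∃ q, q.Prime ∧ n < q ∧ q ≤ 2 * n :=
    fun n hn => Nat.exists_prime_lt_and_le_two_mul n hn
  choose! nx hnx using hB
  let p : ℕ → ℕ := fun i => Nat.rec (nx M) (fun _ q => nx q) i
  have p0 : p 0 = nx M := rfl
  have ps : ∀ i, p (i + 1) = nx (p i) := fun i => rfl
  have hprop : ∀ i, (p i).Prime ∧ M < p i ∧ p i ≤ 2 ^ (i + 1) * M := by
    intro i
    induction i with
    | zero =>
      have := hnx M (by omega)
      rw [p0]; refine ⟨this.1, this.2.1, by simpa using this.2.2⟩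
    | succ i ih =>
      have h1 := hnx (p i) ih.1.ne_zero
      rw [ps]
      refine ⟨h1.1, lt_trans ih.2.1 h1.2.1, ?_⟩
      calc nx (p i) ≤ 2 * p i := h1.2.2
        _ ≤ 2 * (2 ^ (i + 1) * M) := Nat.mul_le_mul_left _ ih.2.2
        _ = _ := by ring
  refine ⟨p, ?_, hprop⟩
  apply strictMono_nat_of_lt_succ
  intro i
  rw [ps]
  exact (hnx (p i) (hprop i).1.ne_zero).2.1

/-- Fresh primes indexed by a finite type. -/
lemma exists_fresh_primes (J : Type*) [Fintype J] (M : ℕ) (hM : 1 ≤ M) :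
    ∃ φ : J → ℕ, Function.Injective φ ∧
      ∀ j, (φ j).Prime ∧ M < φ j ∧ φ j ≤ 2 ^ (Fintype.card J) * M := by
  obtain ⟨p, hmono, hp⟩ := exists_prime_seq M hM
  refine ⟨fun j => p (Fintype.equivFin J j), ?_, ?_⟩
  · intro a b hab
    have h1 := hmono.injective hab
    exact (Fintype.equivFin J).injective (Fin.ext h1)
  · intro j
    obtain ⟨h1, h2, h3⟩ := hp (Fintype.equivFin J j)
    refine ⟨h1, h2, h3.trans ?_⟩
    apply Nat.mul_le_mul_right
    apply Nat.pow_le_pow_right (by norm_num)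
    exact (Fintype.equivFin J j).2

/-- Fresh numbers, general form: index types `K i`, exponents `e i`. -/
lemma exists_fresh (I : Type*) [Fintype I] [DecidableEq I] (K : I → Type*) [∀ i, Fintype (K i)]
    (M : ℕ) (hM : 1 ≤ M) :
    ∃ φ : (i : I) → K i → ℕ, (∀ i l, (φ i l).Prime ∧ M < φ i l ∧
        φ i l ≤ 2 ^ (∑ i, Fintype.card (K i)) * M) ∧
      (∀ i, Function.Injective (φ i)) ∧ (∀ i i' l l', i ≠ i' → φ i l ≠ φ i' l') := by
  obtain ⟨φ, hinj, hφ⟩ := exists_fresh_primes (Σ i, K i) M hM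
  refine ⟨fun i l => φ ⟨i, l⟩, ?_, ?_, ?_⟩
  · intro i l
    have := hφ ⟨i, l⟩
    rwa [Fintype.card_sigma] at this
  · intro i l l' h
    have := hinj h
    simpa using this
  · intro i i' l l' hne h
    have := hinj h
    exact hne (congrArg Sigma.fst this)

/-- label numbers -/
lemma exists_label_numbers (I : Type*) [Fintype I] [DecidableEq I] (r : I → ℕ) (M : ℕ)
    (hM : 1 ≤ M) :
    ∃ Q : I → ℕ, (∀ i, 0 < Q i) ∧ (∀ i, ∀ p : ℕ, p.Prime → p ∣ Q i → M < p) ∧
      (∀ i i', i ≠ i' → Nat.Coprime (Q i) (Q i')) ∧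
      (∀ i m, dv (Q i ^ m) = (m + 1) ^ r i) ∧
      (∀ i, Q i ≤ (2 ^ (∑ i, r i) * M) ^ r i) := by
  obtain ⟨φ, h1, h2, h3⟩ := exists_fresh I (fun i => Fin (r i)) M hM
  refine ⟨fun i => ∏ l, φ i l, ?_, ?_, ?_, ?_, ?_⟩
  · intro i; exact Finset.prod_pos (fun l _ => (h1 i l).1.pos)
  · intro i p hp hdvd
    obtain ⟨l, _, hl⟩ := (Prime.dvd_finsetProd_iff hp.prime _).mp hdvd
    rw [(Nat.prime_dvd_prime_iff_eq hp (h1 i l).1).mp hl]
    exact (h1 i l).2.1
  · intro i i' hne
    apply Nat.Coprime.prod_left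
    intro l _
    apply Nat.Coprime.prod_right
    intro l' _
    rw [Nat.coprime_primes (h1 i l).1 (h1 i' l').1]
    exact h3 i i' l l' hne
  · intro i m
    rw [← Finset.prod_pow, dv_prod_prime_pow univ (φ i) (fun _ => m) (fun l _ => (h1 i l).1)
      (h2 i).injOn]
    simp
  · intro i
    calc ∏ l, φ i l ≤ ∏ l : Fin (r i), (2 ^ (∑ i, r i) * M) := by
          apply Finset.prod_le_prod' 
          intro l _
          have := (h1 i l).2.2
          simpa using this
      _ = _ := by simp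

lemma sum_fact_le (A a : ℕ) (hA : A ≠ 0) (ha : A < 2 ^ a) :
    ∑ p ∈ A.primeFactors, A.factorization p ≤ a := by
  have h1 : 2 ^ (∑ p ∈ A.primeFactors, A.factorization p) ≤ A := by
    rw [← Finset.prod_pow_eq_pow_sum]
    calc ∏ p ∈ A.primeFactors, 2 ^ A.factorization p
        ≤ ∏ p ∈ A.primeFactors, p ^ A.factorization p := by
          apply Finset.prod_le_prod'
          intro p hp
          exact Nat.pow_le_pow_left (Nat.prime_of_mem_primeFactors hp).two_le _
      _ = A := by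
          conv_rhs => rw [← Nat.prod_factorization_pow_eq_self hA]
          rfl
  have h2 : 2 ^ (∑ p ∈ A.primeFactors, A.factorization p) < 2 ^ a := lt_of_le_of_lt h1 ha
  exact ((Nat.pow_lt_pow_iff_right (by norm_num)).mp h2).le

lemma card_primeFactors_le (A a : ℕ) (hA : A ≠ 0) (ha : A < 2 ^ a) :
    A.primeFactors.card ≤ a := by
  refine le_trans ?_ (sum_fact_le A a hA ha)
  rw [Finset.card_eq_sum_ones]
  apply Finset.sum_le_sum
  intro p hp
  exact (Nat.prime_of_mem_primeFactors hp).factorization_pos_of_dvd hA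
    (Nat.dvd_of_mem_primeFactors hp)

/-- copies with fresh primes -/
lemma exists_copies (I : Type*) [Fintype I] [DecidableEq I] (A : I → ℕ) (hA : ∀ i, A i ≠ 0)
    (M a : ℕ) (hM : 1 ≤ M) (ha : ∀ i, A i < 2 ^ a) :
    ∃ B : I → ℕ, (∀ i, 0 < B i) ∧ (∀ i, ∀ p : ℕ, p.Prime → p ∣ B i → M < p) ∧
      (∀ i i', i ≠ i' → Nat.Coprime (B i) (B i')) ∧
      (∀ i, dv (B i) = dv (A i)) ∧
      (∀ i, B i ≤ (2 ^ (Fintype.card I * a) * M) ^ a) := by
  obtain ⟨φ, h1, h2, h3⟩ := exists_fresh I (fun i => {p // p ∈ (A i).primeFactors}) M hM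
  have hcard : ∑ i, Fintype.card {p // p ∈ (A i).primeFactors} ≤ Fintype.card I * a := by
    calc ∑ i, Fintype.card {p // p ∈ (A i).primeFactors} ≤ ∑ i : I, a := by
          apply sum_le_sum
          intro i _
          rw [Fintype.card_coe]
          exact card_primeFactors_le _ _ (hA i) (ha i)
      _ = _ := by simp
  refine ⟨fun i => ∏ p : {p // p ∈ (A i).primeFactors}, φ i p ^ (A i).factorization p,
    ?_, ?_, ?_, ?_, ?_⟩
  · intro i; exact Finset.prod_pos (fun l _ => Nat.pow_pos (h1 i l).1.pos)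
  · intro i p hp hdvd
    obtain ⟨l, _, hl⟩ := (Prime.dvd_finsetProd_iff hp.prime _).mp hdvd
    have hl' := hp.dvd_of_dvd_pow hl
    rw [(Nat.prime_dvd_prime_iff_eq hp (h1 i l).1).mp hl']
    exact (h1 i l).2.1
  · intro i i' hne
    apply Nat.Coprime.prod_left
    intro l _
    apply Nat.Coprime.prod_right
    intro l' _
    apply Nat.Coprime.pow
    rw [Nat.coprime_primes (h1 i l).1 (h1 i' l').1]
    exact h3 i i' l l' hne
  · intro i
    rw [dv_prod_prime_pow univ (φ i) _ (fun l _ => (h1 i l).1) (h2 i).injOn]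
    rw [dv, Nat.card_divisors (hA i)]
    exact Finset.prod_coe_sort (A i).primeFactors (fun x => (A i).factorization x + 1)
  · intro i
    have hΩ : ∑ p : {p // p ∈ (A i).primeFactors}, (A i).factorization p ≤ a := by
      rw [Finset.sum_coe_sort (A i).primeFactors (fun p => (A i).factorization p)]
      exact sum_fact_le _ _ (hA i) (ha i)
    calc ∏ p : {p // p ∈ (A i).primeFactors}, φ i p ^ (A i).factorization p
        ≤ ∏ p : {p // p ∈ (A i).primeFactors}, (2 ^ (Fintype.card I * a) * M) ^ (A i).factorization p := by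
          apply Finset.prod_le_prod'
          intro l _
          apply Nat.pow_le_pow_left
          refine (h1 i l).2.2.trans ?_
          apply Nat.mul_le_mul_right
          exact Nat.pow_le_pow_right (by norm_num) hcard
      _ = (2 ^ (Fintype.card I * a) * M) ^ ∑ p : {p // p ∈ (A i).primeFactors}, (A i).factorization p := by
          rw [Finset.prod_pow_eq_pow_sum]
      _ ≤ _ := Nat.pow_le_pow_right (by positivity) hΩ

end Pool.Agent.Lib.MP_f85a7a_nt
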