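import Mathlib
import Pool.Agent.Lib.MP_f85a7a_nt.Divs

set_option autoImplicit false

/-!
# Common differences with prescribed label primes
-/

namespace Pool.Agent.Lib.MP_f85a7a_nt

open Finset

lemma crt {ι : Type*} [Fintype ι] (a s : ι → ℕ) (hs : ∀ i, s i ≠ 0)
    (pp : ∀ i j, i ≠ j → Nat.Coprime (s i) (s j)) :
    ∃ x, (∀ i, x ≡ a i [MOD s i]) ∧ x < ∏ i, s i := by
  classical
  have pp' : ((univ : Finset ι) : Set ι).Pairwise (Function.onFun Nat.Coprime s) := by
    intro i _ j _ hij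
    exact pp i j hij
  refine ⟨Nat.chineseRemainderOfFinset a s univ (fun i _ => hs i) pp', ?_, ?_⟩
  · intro i
    exact (Nat.chineseRemainderOfFinset a s univ (fun i _ => hs i) pp').2 i (mem_univ _)
  · exact Nat.chineseRemainderOfFinset_lt_prod a s _ _

/-- The common differences `D e = θ + κ e * P!`. -/
theorem exists_theta (k P : ℕ) (E : Type*) [Fintype E] [DecidableEq E] (κ : E → ℕ)
    (hκ : Function.Injective κ) (hκP : ∀ e, κ e < P) (hP : 2 ≤ P) (r : E → Fin k → ℕ) :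
    ∃ (θ : ℕ) (Q : E → Fin k → ℕ),
      (∀ e, ∀ p : ℕ, p.Prime → p ∣ θ + κ e * P.factorial → P < p) ∧
      (∀ e e', e ≠ e' → Nat.Coprime (θ + κ e * P.factorial) (θ + κ e' * P.factorial)) ∧
      (∀ e j, 0 < Q e j) ∧
      (∀ e j, ∀ p : ℕ, p.Prime → p ∣ Q e j → P < p) ∧
      (∀ e j, Q e j ^ 3 ∣ θ + κ e * P.factorial ∧
        Nat.Coprime ((θ + κ e * P.factorial) / Q e j ^ 3) (Q e j)) ∧
      (∀ e j j', j ≠ j' → Nat.Coprime (Q e j) (Q e j')) ∧
      (∀ e j m, dv (Q e j ^ m) = (m + 1) ^ r e j) ∧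
      θ < P.factorial * ∏ i : E × Fin k, ((2 ^ (∑ i : E × Fin k, r i.1 i.2) * P) ^ r i.1 i.2) ^ 4 := by
  classical
  obtain ⟨Q, hQpos, hQprime, hQcop, hQdv, hQle⟩ :=
    exists_label_numbers (E × Fin k) (fun i => r i.1 i.2) P (by omega)
  set T := P.factorial with hT
  have hTpos : 0 < T := Nat.factorial_pos P
  have hTQ : ∀ i, Nat.Coprime T (Q i) := by
    intro i
    rw [Nat.coprime_iff_gcd_eq_one]
    by_contra hne
    obtain ⟨p, hp, hpd⟩ := Nat.exists_prime_and_dvd hne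
    have h1 : p ∣ T := hpd.trans (Nat.gcd_dvd_left _ _)
    have h2 : p ∣ Q i := hpd.trans (Nat.gcd_dvd_right _ _)
    have h3 := hQprime i p hp h2
    have h4 := (hp.dvd_factorial).mp h1
    omega
  obtain ⟨θ, hθ, hθlt⟩ := crt
    (fun o : Option (E × Fin k) => match o with
      | none => 1
      | some i => Q i ^ 3 + κ i.1 * T * (Q i ^ 4 - 1))
    (fun o : Option (E × Fin k) => match o with
      | none => T
      | some i => Q i ^ 4)
    (by
      intro o
      cases o with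
      | none => exact hTpos.ne'
      | some i => exact (Nat.pow_pos (hQpos i)).ne')
    (by
      intro o o' hne
      cases o with
      | none =>
        cases o' with
        | none => exact absurd rfl hne
        | some i => exact (hTQ i).pow_right 4
      | some i =>
        cases o' with
        | none => exact ((hTQ i).pow_right 4).symm
        | some i' =>
          exact (hQcop i i' (fun h => hne (by rw [h]))).pow 4 4)
  have hθT : θ ≡ 1 [MOD T] := hθ none
  have hθQ : ∀ i : E × Fin k, θ + κ i.1 * T ≡ Q i ^ 3 [MOD Q i ^ 4] := by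
    intro i
    have h1 : θ ≡ Q i ^ 3 + κ i.1 * T * (Q i ^ 4 - 1) [MOD Q i ^ 4] := hθ (some i)
    have h2 := h1.add_right (κ i.1 * T)
    refine h2.trans ?_
    have hpos : 0 < Q i ^ 4 := Nat.pow_pos (hQpos i)
    have h3 : Q i ^ 3 + κ i.1 * T * (Q i ^ 4 - 1) + κ i.1 * T = Q i ^ 3 + Q i ^ 4 * (κ i.1 * T) := by
      obtain ⟨c, hc⟩ : ∃ c, Q i ^ 4 = c + 1 := ⟨Q i ^ 4 - 1, by omega⟩
      rw [hc]; simp; ring
    rw [h3]
    exact Nat.add_mul_mod_self_left _ _ _
  have hDprime : ∀ e, ∀ p : ℕ, p.Prime → p ∣ θ + κ e * T → P < p := by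
    intro e p hp hdvd
    by_contra hcon
    push Not at hcon
    have h1 : p ∣ T := (hp.dvd_factorial).mpr hcon
    have h2 : p ∣ θ := (Nat.dvd_add_left (h1.mul_left (κ e))).mp hdvd
    have h3 : p ∣ 1 := (hθT.dvd_iff h1).mp h2
    exact hp.one_lt.ne' (Nat.dvd_one.mp h3)
  refine ⟨θ, fun e j => Q (e, j), hDprime, ?_, ?_, ?_, ?_, ?_, ?_, ?_⟩
  · intro e e' hne
    rw [Nat.coprime_iff_gcd_eq_one]
    by_contra hne1
    obtain ⟨p, hp, hpd⟩ := Nat.exists_prime_and_dvd hne1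
    have h1 : p ∣ θ + κ e * T := hpd.trans (Nat.gcd_dvd_left _ _)
    have h2 : p ∣ θ + κ e' * T := hpd.trans (Nat.gcd_dvd_right _ _)
    have hPp := hDprime e p hp h1
    have hpT : ¬ p ∣ T := by
      rw [hT, hp.dvd_factorial]; omega
    have h3 : (p : ℤ) ∣ ((κ e : ℤ) - κ e') * T := by
      have h1' : (p : ℤ) ∣ (θ : ℤ) + κ e * T := by exact_mod_cast h1
      have h2' : (p : ℤ) ∣ (θ : ℤ) + κ e' * T := by exact_mod_cast h2
      have := dvd_sub h1' h2'
      have e : (θ : ℤ) + κ e * T - (θ + κ e' * T) = ((κ e : ℤ) - κ e') * T := by ring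
      rwa [e] at this
    have hpI : Prime (p : ℤ) := Nat.prime_iff_prime_int.mp hp
    rcases hpI.dvd_or_dvd h3 with h4 | h4
    · have h5 : (κ e : ℤ) - κ e' ≠ 0 := by
        intro h0
        apply hne
        apply hκ
        omega
      have h6 := Int.le_of_dvd (by positivity : (0 : ℤ) < |(κ e : ℤ) - κ e'|) ((dvd_abs _ _).mpr h4)
      have h7 := hκP e
      have h8 := hκP e'
      have h9 : |(κ e : ℤ) - κ e'| < P := by
        rw [abs_lt]; constructor <;> omega
      omega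
    · exact hpT (by exact_mod_cast h4)
  · intro e j; exact hQpos _
  · intro e j; exact hQprime _
  · intro e j
    have h1 := hθQ (e, j)
    simp only at h1
    have hdvd : Q (e, j) ^ 3 ∣ θ + κ e * T := by
      rw [h1.dvd_iff (pow_dvd_pow _ (by norm_num))]
    refine ⟨hdvd, ?_⟩
    obtain ⟨c, hc⟩ := hdvd
    have hpos : 0 < Q (e, j) ^ 3 := Nat.pow_pos (hQpos _)
    rw [hc, Nat.mul_div_cancel_left _ hpos]
    have h2 : Q (e, j) ^ 3 * c ≡ Q (e, j) ^ 3 * 1 [MOD Q (e, j) ^ 3 * Q (e, j)] := by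
      rw [← hc, mul_one, ← pow_succ]; exact h1
    have h3 := Nat.ModEq.mul_left_cancel' hpos.ne' h2
    have h4 := h3.gcd_eq
    rw [Nat.coprime_iff_gcd_eq_one, h4]; simp
  · intro e j j' hne
    apply hQcop
    intro h
    exact hne (congrArg Prod.snd h)
  · intro e j m; exact hQdv (e, j) m
  · refine lt_of_lt_of_le hθlt ?_
    rw [Fintype.prod_option]
    apply Nat.mul_le_mul_left
    apply Finset.prod_le_prod'
    intro i _
    exact Nat.pow_le_pow_left (hQle i) 4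

/-- The residue `u` which makes the divisor counts of `D * (v + j)` and `v + j` differ by the
prescribed power of two. -/
theorem exists_u (k D : ℕ) (Q : Fin k → ℕ) (r : Fin k → ℕ) (hD : D ≠ 0)
    (hDp : ∀ p : ℕ, p.Prime → p ∣ D → k < p) (hQpos : ∀ j, 0 < Q j)
    (hQD : ∀ j, Q j ^ 3 ∣ D ∧ Nat.Coprime (D / Q j ^ 3) (Q j))
    (hQcop : ∀ j j', j ≠ j' → Nat.Coprime (Q j) (Q j'))
    (hQdv : ∀ j m, dv (Q j ^ m) = (m + 1) ^ r j) :
    ∃ u : ℕ, ∀ v, v ≡ u [MOD D] → ∀ j : Fin k,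
      dv (D * (v + j)) * 2 ^ r j = dv D * dv (v + j) := by
  classical
  -- the part of `D` prime to the label numbers
  have hprod : (∏ j, Q j ^ 3) ∣ D := by
    apply Finset.prod_dvd_of_isRelPrime
    · intro i _ j _ hij
      exact Nat.coprime_iff_isRelPrime.mp (Nat.Coprime.pow 3 3 (hQcop i j hij))
    · intro j _; exact (hQD j).1
  obtain ⟨D', hD'⟩ := hprod
  have hsplit : ∀ j, D = Q j ^ 3 * ((∏ i ∈ univ.erase j, Q i ^ 3) * D') := by
    intro j
    rw [← mul_assoc, Finset.mul_prod_erase univ (fun i => Q i ^ 3) (mem_univ j)]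
    exact hD'
  have hdiv : ∀ j, D / Q j ^ 3 = (∏ i ∈ univ.erase j, Q i ^ 3) * D' := by
    intro j
    conv_lhs => rw [hsplit j]
    exact Nat.mul_div_cancel_left _ (Nat.pow_pos (hQpos j))
  have hD'0 : D' ≠ 0 := by
    rintro rfl
    exact hD (by rw [hD']; simp)
  have hD'Q : ∀ j, Nat.Coprime D' (Q j) := by
    intro j
    have h1 := (hQD j).2
    rw [hdiv j] at h1
    exact Nat.Coprime.coprime_dvd_left (Dvd.intro_left _ rfl) h1
  obtain ⟨u, hu, -⟩ := crt
    (fun o : Option (Fin k) => match o with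
      | none => 1
      | some j => Q j ^ 2 + j * (Q j ^ 3 - 1))
    (fun o : Option (Fin k) => match o with
      | none => D'
      | some j => Q j ^ 3)
    (by
      intro o
      cases o with
      | none => exact hD'0
      | some j => exact (Nat.pow_pos (hQpos j)).ne')
    (by
      intro o o' hne
      cases o with
      | none =>
        cases o' with
        | none => exact absurd rfl hne
        | some j => exact (hD'Q j).pow_right 3
      | some j =>
        cases o' with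
        | none => exact ((hD'Q j).pow_right 3).symm
        | some j' => exact (hQcop j j' (fun h => hne (by rw [h]))).pow 3 3)
  have huD' : u ≡ 1 [MOD D'] := hu none
  have huQ : ∀ j : Fin k, u + j ≡ Q j ^ 2 [MOD Q j ^ 3] := by
    intro j
    have h1 : u ≡ Q j ^ 2 + j * (Q j ^ 3 - 1) [MOD Q j ^ 3] := hu (some j)
    have h2 := h1.add_right (j : ℕ)
    refine h2.trans ?_
    have hpos : 0 < Q j ^ 3 := Nat.pow_pos (hQpos j)
    have h3 : Q j ^ 2 + j * (Q j ^ 3 - 1) + j = Q j ^ 2 + Q j ^ 3 * j := by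
      obtain ⟨c, hc⟩ : ∃ c, Q j ^ 3 = c + 1 := ⟨Q j ^ 3 - 1, by omega⟩
      rw [hc]; simp; ring
    rw [h3]
    exact Nat.add_mul_mod_self_left _ _ _
  refine ⟨u, fun v hv j => ?_⟩
  have hvQ : ∀ j : Fin k, v + j ≡ Q j ^ 2 [MOD Q j ^ 3] := by
    intro j
    exact ((hv.of_dvd (hQD j).1).add_right _).trans (huQ j)
  have hvD' : v ≡ 1 [MOD D'] := (hv.of_dvd (by rw [hD']; exact Dvd.intro_left _ rfl)).trans huD'
  set w := v + (j : ℕ) with hw
  -- structure of w
  have hdvd : Q j ^ 2 ∣ w := by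
    rw [(hvQ j).dvd_iff (pow_dvd_pow _ (by norm_num))]
  obtain ⟨c, hc⟩ := hdvd
  have hQ2 : 0 < Q j ^ 2 := Nat.pow_pos (hQpos j)
  have hcQ : Nat.Coprime c (Q j) := by
    have h2 : Q j ^ 2 * c ≡ Q j ^ 2 * 1 [MOD Q j ^ 2 * Q j] := by
      rw [← hc, mul_one, ← pow_succ]; exact hvQ j
    have h3 := Nat.ModEq.mul_left_cancel' hQ2.ne' h2
    have h4 := h3.gcd_eq
    rw [Nat.coprime_iff_gcd_eq_one, h4]; simp
  have hwD : Nat.Coprime w (D / Q j ^ 3) := by
    rw [Nat.coprime_iff_gcd_eq_one]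
    by_contra hne1
    obtain ⟨p, hp, hpd⟩ := Nat.exists_prime_and_dvd hne1
    have h1 : p ∣ w := hpd.trans (Nat.gcd_dvd_left _ _)
    have h2 : p ∣ D / Q j ^ 3 := hpd.trans (Nat.gcd_dvd_right _ _)
    have h3 : p ∣ D := h2.trans (Nat.div_dvd_of_dvd (hQD j).1)
    have hkp := hDp p hp h3
    rw [hdiv j, hp.dvd_mul] at h2
    rcases h2 with h2 | h2
    · obtain ⟨i, hi, hpi⟩ := (Prime.dvd_finsetProd_iff hp.prime _).mp h2
      have hpQ := hp.dvd_of_dvd_pow hpi
      have hij : i ≠ j := (mem_erase.mp hi).1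
      have h5 : p ∣ v + i := by
        rw [(hvQ i).dvd_iff (hpQ.trans (dvd_pow_self _ (by norm_num)))]
        exact hpQ.trans (dvd_pow_self _ (by norm_num))
      have h6 : (p : ℤ) ∣ (i : ℤ) - j := by
        have e1 : (p : ℤ) ∣ (v : ℤ) + i := by exact_mod_cast h5
        have e2 : (p : ℤ) ∣ (v : ℤ) + j := by rw [hw] at h1; exact_mod_cast h1
        have := dvd_sub e1 e2
        have e : (v : ℤ) + i - (v + j) = (i : ℤ) - j := by ring
        rwa [e] at this
      have h7 : (i : ℤ) - j ≠ 0 := by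
        intro h0
        apply hij
        apply Fin.ext
        omega
      have h8 := Int.le_of_dvd (by positivity : (0 : ℤ) < |(i : ℤ) - j|) ((dvd_abs _ _).mpr h6)
      have h9 : |(i : ℤ) - j| < k := by
        have := i.2
        have := j.2
        rw [abs_lt]; constructor <;> omega
      omega
    · have h5 : p ∣ 1 + j := by
        have := (hvD'.of_dvd h2).add_right (j : ℕ)
        rw [← this.dvd_iff dvd_rfl]
        exact h1
      have h6 := Nat.le_of_dvd (by omega) h5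
      have := j.2
      omega
  have hcD : Nat.Coprime c (D / Q j ^ 3) :=
    Nat.Coprime.coprime_dvd_left (by rw [hc]; exact Dvd.intro_left _ rfl) hwD
  have e1 : dv w = 3 ^ r j * dv c := by
    rw [hc, dv_mul (hcQ.symm.pow_left 2), hQdv]
  have hDj : D = (D / Q j ^ 3) * Q j ^ 3 := (Nat.div_mul_cancel (hQD j).1).symm
  have e2 : dv D = dv (D / Q j ^ 3) * 4 ^ r j := by
    conv_lhs => rw [hDj]
    rw [dv_mul ((hQD j).2.pow_right 3), hQdv]
  have e3 : dv (D * w) = dv (D / Q j ^ 3) * (6 ^ r j * dv c) := by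
    have : D * w = (D / Q j ^ 3) * (Q j ^ 5 * c) := by
      conv_lhs => rw [hDj, hc]
      ring
    rw [this, dv_mul, dv_mul (hcQ.symm.pow_left 5), hQdv]
    exact Nat.Coprime.mul_right ((hQD j).2.pow_right 5) hcD.symm
  rw [e1, e2, e3]
  have h12 : (6 : ℕ) ^ r j * 2 ^ r j = 4 ^ r j * 3 ^ r j := by
    rw [← mul_pow, ← mul_pow]; norm_num
  calc dv (D / Q j ^ 3) * (6 ^ r j * dv c) * 2 ^ r j
      = dv (D / Q j ^ 3) * dv c * (6 ^ r j * 2 ^ r j) := by ring
    _ = dv (D / Q j ^ 3) * dv c * (4 ^ r j * 3 ^ r j) := by rw [h12]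
    _ = _ := by ring

/-- The translation `n₁`. -/
theorem exists_translation (k : ℕ) (E : Type*) [Fintype E] [DecidableEq E] (D b : E → ℕ)
    (r : E → Fin k → ℕ) (hD0 : ∀ e, D e ≠ 0)
    (hcop : ∀ e e', e ≠ e' → Nat.Coprime (D e) (D e'))
    (hu : ∀ e, ∃ u : ℕ, ∀ v, v ≡ u [MOD D e] → ∀ j : Fin k,
      dv (D e * (v + j)) * 2 ^ r e j = dv (D e) * dv (v + j)) :
    ∃ n : ℕ, 0 < n ∧ (∀ e, D e ∣ n + b e) ∧ (∀ e, ∀ j : Fin k,
      dv (n + b e + j * D e) * 2 ^ r e j = dv (D e) * dv ((n + b e + j * D e) / D e)) ∧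
      n ≤ 2 * ∏ e, D e ^ 2 := by
  classical
  choose u hu using hu
  have hDpos : ∀ e, 0 < D e := fun e => Nat.pos_of_ne_zero (hD0 e)
  obtain ⟨x, hx, hxlt⟩ := crt (fun e => D e * u e + b e * (D e ^ 2 - 1)) (fun e => D e ^ 2)
    (fun e => (Nat.pow_pos (hDpos e)).ne') (fun e e' hne => (hcop e e' hne).pow 2 2)
  have hprodpos : 0 < ∏ e, D e ^ 2 := Finset.prod_pos (fun e _ => Nat.pow_pos (hDpos e))
  have key : ∀ e, x + (∏ e, D e ^ 2) + b e ≡ D e * u e [MOD D e ^ 2] := by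
    intro e
    have h1 := hx e
    have h2 : ∏ e, D e ^ 2 ≡ 0 [MOD D e ^ 2] :=
      (Nat.modEq_zero_iff_dvd).mpr (Finset.dvd_prod_of_mem _ (mem_univ e))
    have h3 := (h1.add h2).add_right (b e)
    refine h3.trans ?_
    have hpos : 0 < D e ^ 2 := Nat.pow_pos (hDpos e)
    have h4 : D e * u e + b e * (D e ^ 2 - 1) + 0 + b e = D e * u e + D e ^ 2 * b e := by
      obtain ⟨c, hc⟩ : ∃ c, D e ^ 2 = c + 1 := ⟨D e ^ 2 - 1, by omega⟩
      rw [hc]; simp; ring
    rw [h4]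
    exact Nat.add_mul_mod_self_left _ _ _
  have hdvd : ∀ e, D e ∣ x + (∏ e, D e ^ 2) + b e := by
    intro e
    rw [(key e).dvd_iff (dvd_pow_self _ (by norm_num))]
    exact Dvd.intro _ rfl
  refine ⟨x + ∏ e, D e ^ 2, by omega, hdvd, ?_, by omega⟩
  intro e j
  obtain ⟨v, hv⟩ := hdvd e
  have h1 : D e * v ≡ D e * u e [MOD D e * D e] := by
    rw [← hv, ← sq]; exact key e
  have h2 := Nat.ModEq.mul_left_cancel' (hD0 e) h1
  have h3 : x + (∏ e, D e ^ 2) + b e + j * D e = D e * (v + j) := by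
    rw [hv]; ring
  rw [h3, Nat.mul_div_cancel_left _ (hDpos e)]
  exact hu e v h2 j

end Pool.Agent.Lib.MP_f85a7a_nt
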