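import Mathlib

set_option autoImplicit false

/-!
# A labelling lemma for projection hypergraphs

Edges are the functions `σ : Fin k → Fin s`; the `j`-th vertex of `σ` is the restriction of `σ` to
the coordinates different from `j`. If `s` is large in terms of the number of colours, the edges
can be labelled so that every colouring of the vertices is matched by the label of some edge.
-/

namespace Pool.Agent.Lib.MP_f85a7a_nt

open Finset

lemma bernoulli_aux (b n : ℕ) : b ^ (n + 1) + (n + 1) * b ^ n ≤ (b + 1) ^ (n + 1) := by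
  induction n with
  | zero => simp
  | succ n ih =>
    calc b ^ (n + 1 + 1) + (n + 1 + 1) * b ^ (n + 1)
        ≤ (b ^ (n + 1) + (n + 1) * b ^ n) * (b + 1) := by
          ring_nf; nlinarith [Nat.zero_le (b^n)]
      _ ≤ (b + 1) ^ (n + 1) * (b + 1) := Nat.mul_le_mul_right _ ih
      _ = _ := by ring

/-- the elementary inequality behind the union bound -/
lemma pow_ineq (a s : ℕ) (ha : 1 ≤ a) (hs : a ^ 2 ≤ s) : a * (a - 1) ^ s < a ^ s := by
  obtain ⟨b, rfl⟩ : ∃ b, a = b + 1 := ⟨a - 1, by omega⟩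
  simp only [Nat.add_sub_cancel]
  have hs1 : 1 ≤ s := le_trans (Nat.one_le_pow _ _ ha) hs
  obtain ⟨t, rfl⟩ : ∃ t, s = t + 1 := ⟨s - 1, by omega⟩
  have h1 := bernoulli_aux b t
  rcases Nat.eq_zero_or_pos b with rfl | hb
  · simp
  · refine lt_of_lt_of_le ?_ h1
    have hpos : 0 < b ^ t := Nat.pow_pos hb
    have : (b + 1) * b ^ (t + 1) = b ^ (t + 1) + b ^ t * (b ^ 2) := by ring
    rw [this]
    have h2 : b ^ t * b ^ 2 < (t + 1) * b ^ t := by
      rw [mul_comm (t + 1)]
      exact Nat.mul_lt_mul_of_pos_left (by nlinarith) hpos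
    omega

/-- The counting form of the labelling lemma. -/
lemma exists_labels_aux (k R s : ℕ) (hs : ((R + 1) ^ k) ^ 2 ≤ s) :
    ∃ r : (Fin k → Fin s) → Fin k → Fin (R + 1),
      ∀ g : (j : Fin k) → ({i : Fin k // i ≠ j} → Fin s) → Fin (R + 1),
        ∃ σ : Fin k → Fin s, ∀ j, r σ j = g j (fun i => σ i) := by
  classical
  by_contra hcon
  push Not at hcon
  -- every labelling is missed by some colouring
  let G := (j : Fin k) → ({i : Fin k // i ≠ j} → Fin s) → Fin (R + 1)
  let bad : G → Finset ((Fin k → Fin s) → Fin k → Fin (R + 1)) := fun g =>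
    Fintype.piFinset (fun σ => univ.erase (fun j => g j (fun i => σ i)))
  have hcover : (univ : Finset ((Fin k → Fin s) → Fin k → Fin (R + 1))) ⊆
      (univ : Finset G).biUnion bad := by
    intro r _
    obtain ⟨g, hg⟩ := hcon r
    simp only [mem_biUnion, mem_univ, true_and]
    refine ⟨g, ?_⟩
    simp only [bad, Fintype.mem_piFinset, mem_erase, mem_univ, and_true]
    intro σ heq
    obtain ⟨j, hj⟩ := hg σ
    exact hj (congrFun heq j)
  set a := (R + 1) ^ k with ha
  have ha1 : 1 ≤ a := Nat.one_le_pow _ _ (by omega)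
  have hs1 : 1 ≤ s := le_trans (Nat.one_le_pow _ _ ha1) hs
  have hcardbad : ∀ g : G, (bad g).card = (a - 1) ^ (s ^ k) := by
    intro g
    simp only [bad, Fintype.card_piFinset]
    have : ∀ σ : Fin k → Fin s, (univ.erase (fun j => g j (fun i => σ i))).card = a - 1 := by
      intro σ
      rw [card_erase_of_mem (mem_univ _), card_univ]
      simp [ha]
    simp [this]
  have hcardG : Fintype.card G = a ^ (s ^ (k - 1)) := by
    simp only [G, Fintype.card_pi]
    simp only [prod_const, card_univ, Fintype.card_fin, ha]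
    simp only [Fintype.card_pi, Fintype.card_fin, prod_const, card_univ,
      Fintype.card_subtype_compl, Fintype.card_unique]
    rw [← pow_mul, ← pow_mul, mul_comm]
  have h1 := card_le_card hcover
  have h2 : ((univ : Finset G).biUnion bad).card ≤ Fintype.card G * (a - 1) ^ (s ^ k) := by
    refine le_trans card_biUnion_le ?_
    rw [sum_congr rfl (fun g _ => hcardbad g)]
    simp
  have h3 : (univ : Finset ((Fin k → Fin s) → Fin k → Fin (R + 1))).card = a ^ (s ^ k) := by
    rw [card_univ]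
    simp [ha]
  rw [h3] at h1
  have h4 := le_trans h1 h2
  rw [hcardG] at h4
  rcases Nat.eq_zero_or_pos k with rfl | hk
  · simp [ha] at h4
  · have hk' : s ^ k = s * s ^ (k - 1) := by
      obtain ⟨k', rfl⟩ : ∃ k', k = k' + 1 := ⟨k - 1, by omega⟩
      simp [pow_succ, mul_comm]
    rw [hk', pow_mul, pow_mul, ← mul_pow] at h4
    have h5 := pow_ineq a s ha1 hs
    have h6 : (a * (a - 1) ^ s) ^ (s ^ (k - 1)) < (a ^ s) ^ (s ^ (k - 1)) := by
      apply Nat.pow_lt_pow_left h5
      exact (Nat.pow_pos hs1).ne'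
    omega

/-- Labelling lemma: colourings are functions `f j σ` of a vertex `(j, σ)` which do not depend on
the `j`-th coordinate of `σ`. -/
theorem exists_labels (k R s : ℕ) (hs : ((R + 1) ^ k) ^ 2 ≤ s) :
    ∃ r : (Fin k → Fin s) → Fin k → ℕ, (∀ σ j, r σ j ≤ R) ∧
      ∀ f : Fin k → (Fin k → Fin s) → ℕ, (∀ j σ, f j σ ≤ R) →
        (∀ j σ τ, (∀ i, i ≠ j → σ i = τ i) → f j σ = f j τ) →
        ∃ σ : Fin k → Fin s, ∀ j, r σ j + f j σ = R := by
  classical
  obtain ⟨r, hr⟩ := exists_labels_aux k R s hs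
  refine ⟨fun σ j => (r σ j : ℕ), fun σ j => Nat.lt_succ_iff.mp (r σ j).2, ?_⟩
  intro f hf hind
  have hs1 : 0 < s := lt_of_lt_of_le (by positivity) hs
  let z : Fin s := ⟨0, hs1⟩
  obtain ⟨σ, hσ⟩ := hr (fun j ρ => ⟨R - f j (fun i => if h : i ≠ j then ρ ⟨i, h⟩ else z), by omega⟩)
  refine ⟨σ, fun j => ?_⟩
  have h1 := congrArg Fin.val (hσ j)
  have h2 : f j (fun i => if h : i ≠ j then σ i else z) = f j σ := by
    apply hind
    intro i hi
    simp [hi]
  simp only [h2] at h1
  have := hf j σ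
  show (r σ j : ℕ) + f j σ = R
  rw [h1]
  omega

end Pool.Agent.Lib.MP_f85a7a_nt
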