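import Mathlib
import Pool.Agent.Lib.MP_f85a7a_nt.Build

set_option autoImplicit false

/-!
# The final modulus

The numbers `n₁ + x` are multiplied by coprime numbers `B x` with fresh prime factors so that all
the products have the same number of divisors, and a modulus `Q` and a shift `n₂` are chosen such
that `Q * m + n₂ + x = (n₁ + x) * B x * L x m` with `L x m` prime to `Q`.
-/

namespace Pool.Agent.Lib.MP_f85a7a_nt

open Finset

lemma exists_copies_finset {ι : Type*} [DecidableEq ι] (S : Finset ι) (A : ι → ℕ)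
    (hA : ∀ i ∈ S, A i ≠ 0) (M a : ℕ) (hM : 1 ≤ M) (ha : ∀ i ∈ S, A i < 2 ^ a) :
    ∃ B : ι → ℕ, (∀ i, 0 < B i) ∧ (∀ i, ∀ p : ℕ, p.Prime → p ∣ B i → M < p) ∧
      (∀ i ∈ S, ∀ i' ∈ S, i ≠ i' → Nat.Coprime (B i) (B i')) ∧
      (∀ i ∈ S, dv (B i) = dv (A i)) ∧
      (∀ i ∈ S, B i ≤ (2 ^ (S.card * a) * M) ^ a) := by
  classical
  obtain ⟨B, h1, h2, h3, h4, h5⟩ := exists_copies {i // i ∈ S} (fun i => A i)
    (fun i => hA i i.2) M a hM (fun i => ha i i.2)
  refine ⟨fun i => if h : i ∈ S then B ⟨i, h⟩ else 1, ?_, ?_, ?_, ?_, ?_⟩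
  · intro i
    by_cases h : i ∈ S
    · simp only [h, dite_true]; exact h1 _
    · simp [h]
  · intro i p hp hdvd
    by_cases h : i ∈ S
    · simp only [h, dite_true] at hdvd; exact h2 _ p hp hdvd
    · simp only [h, dite_false] at hdvd
      exact absurd (Nat.dvd_one.mp hdvd) hp.one_lt.ne'
  · intro i hi i' hi' hne
    simp only [hi, hi', dite_true]
    apply h3
    intro h
    exact hne (congrArg Subtype.val h)
  · intro i hi
    simp only [hi, dite_true]
    exact h4 _
  · intro i hi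
    simp only [hi, dite_true]
    have := h5 ⟨i, hi⟩
    simpa using this

lemma dv_prod {ι : Type*} (S : Finset ι) (f : ι → ℕ)
    (h : ∀ i ∈ S, ∀ j ∈ S, i ≠ j → Nat.Coprime (f i) (f j)) :
    dv (∏ i ∈ S, f i) = ∏ i ∈ S, dv (f i) := by
  classical
  induction S using Finset.induction_on with
  | empty => simp [dv]
  | insert a S ha ih =>
    rw [prod_insert ha, prod_insert ha, dv_mul, ih]
    · intro i hi j hj hij
      exact h i (mem_insert_of_mem hi) j (mem_insert_of_mem hj) hij
    · apply Nat.Coprime.prod_right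
      intro i hi
      exact h a (mem_insert_self _ _) i (mem_insert_of_mem hi) (fun e => ha (e ▸ hi))

theorem exists_modulus (V : Finset ℕ) (n₁ P M a : ℕ) (hn₁ : 0 < n₁) (hM : 1 ≤ M) (hPM : P ≤ M)
    (hVM : ∀ x ∈ V, n₁ + x ≤ M) (ha : ∀ x ∈ V, n₁ + x < 2 ^ a) :
    ∃ (B : ℕ → ℕ) (n₂ Q : ℕ), 0 < Q ∧ n₂ < Q ∧
      (∀ x ∈ V, 0 < B x) ∧ (∀ x ∈ V, Nat.Coprime (n₁ + x) (B x)) ∧
      (∀ x ∈ V, dv (n₁ + x) * dv (B x) = ∏ x' ∈ V, dv (n₁ + x')) ∧
      (∀ x ∈ V, (n₁ + x) * B x ∣ n₂ + x) ∧ (∀ x ∈ V, (n₁ + x) * B x ∣ Q) ∧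
      (∀ x ∈ V, Nat.Coprime (Q / ((n₁ + x) * B x)) ((n₂ + x) / ((n₁ + x) * B x))) ∧
      (∀ x ∈ V, ∀ p : ℕ, p.Prime → (p ≤ P ∨ p ∣ (n₁ + x) * B x) →
        p ∣ Q / ((n₁ + x) * B x)) ∧
      Q ≤ (P.factorial * (2 ^ a) ^ V.card) ^ 2 *
        ((((2 ^ (V.card * V.card * a) * M) ^ a) ^ V.card) ^ 2) ^ V.card := by
  classical
  obtain ⟨b, hbpos, hbprime, hbcop, hbdv, hble⟩ := exists_copies_finset (V ×ˢ V)
    (fun z : ℕ × ℕ => n₁ + z.2) (by intro z _; omega) M a hM
    (by intro z hz; exact ha z.2 (mem_product.mp hz).2)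
  rw [card_product] at hble
  set B : ℕ → ℕ := fun x => ∏ x' ∈ V.erase x, b (x, x') with hB
  have hBpos : ∀ x, 0 < B x := fun x => Finset.prod_pos (fun _ _ => hbpos _)
  have hBprime : ∀ x, ∀ p : ℕ, p.Prime → p ∣ B x → M < p := by
    intro x p hp hdvd
    obtain ⟨x', _, hx'⟩ := (Prime.dvd_finsetProd_iff hp.prime _).mp hdvd
    exact hbprime _ p hp hx'
  have hBcop : ∀ x ∈ V, ∀ y ∈ V, x ≠ y → Nat.Coprime (B x) (B y) := by
    intro x hx y hy hne
    apply Nat.Coprime.prod_left
    intro x' hx'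
    apply Nat.Coprime.prod_right
    intro y' hy'
    apply hbcop
    · exact mem_product.mpr ⟨hx, (mem_erase.mp hx').2⟩
    · exact mem_product.mpr ⟨hy, (mem_erase.mp hy').2⟩
    · intro h; exact hne (congrArg Prod.fst h)
  have hBdv : ∀ x ∈ V, dv (n₁ + x) * dv (B x) = ∏ x' ∈ V, dv (n₁ + x') := by
    intro x hx
    rw [hB]
    simp only
    rw [dv_prod, ← Finset.mul_prod_erase V (fun x' => dv (n₁ + x')) hx]
    · congr 1
      apply prod_congr rfl
      intro x' hx'
      exact hbdv (x, x') (mem_product.mpr ⟨hx, (mem_erase.mp hx').2⟩)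
    · intro x' hx' y' hy' hne
      apply hbcop
      · exact mem_product.mpr ⟨hx, (mem_erase.mp hx').2⟩
      · exact mem_product.mpr ⟨hx, (mem_erase.mp hy').2⟩
      · intro h; exact hne (congrArg Prod.snd h)
  set F := P.factorial * ∏ x ∈ V, (n₁ + x) with hF
  have hFpos : 0 < F := Nat.mul_pos (Nat.factorial_pos P)
    (Finset.prod_pos (fun x _ => by omega))
  have hAF : ∀ x ∈ V, n₁ + x ∣ F := by
    intro x hx
    exact (Finset.dvd_prod_of_mem (fun x => n₁ + x) hx).mul_left _
  have hFprime : ∀ p : ℕ, p.Prime → p ∣ F → p ≤ M := by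
    intro p hp hdvd
    rcases hp.dvd_mul.mp hdvd with h | h
    · exact ((hp.dvd_factorial).mp h).trans hPM
    · obtain ⟨x, hx, hpx⟩ := (Prime.dvd_finsetProd_iff hp.prime _).mp h
      exact (Nat.le_of_dvd (by omega) hpx).trans (hVM x hx)
  have hFB : ∀ x, Nat.Coprime F (B x) := by
    intro x
    rw [Nat.coprime_iff_gcd_eq_one]
    by_contra hne
    obtain ⟨p, hp, hpd⟩ := Nat.exists_prime_and_dvd hne
    have h1 := hFprime p hp (hpd.trans (Nat.gcd_dvd_left _ _))
    have h2 := hBprime x p hp (hpd.trans (Nat.gcd_dvd_right _ _))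
    omega
  obtain ⟨n₂, hn₂, hn₂lt⟩ := crt
    (fun o : Option {x // x ∈ V} => match o with
      | none => n₁
      | some x => B x + x * (B x ^ 2 - 1))
    (fun o : Option {x // x ∈ V} => match o with
      | none => F ^ 2
      | some x => B x ^ 2)
    (by
      intro o
      cases o with
      | none => exact (Nat.pow_pos hFpos).ne'
      | some x => exact (Nat.pow_pos (hBpos x)).ne')
    (by
      intro o o' hne
      cases o with
      | none =>
        cases o' with
        | none => exact absurd rfl hne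
        | some x => exact (hFB x).pow 2 2
      | some x =>
        cases o' with
        | none => exact ((hFB x).pow 2 2).symm
        | some y =>
          refine (hBcop x x.2 y y.2 (fun h => hne ?_)).pow 2 2
          rw [Subtype.ext h])
  have hn₂F : n₂ ≡ n₁ [MOD F ^ 2] := hn₂ none
  have hn₂B : ∀ x ∈ V, n₂ + x ≡ B x [MOD B x ^ 2] := by
    intro x hx
    have h1 : n₂ ≡ B x + x * (B x ^ 2 - 1) [MOD B x ^ 2] := hn₂ (some ⟨x, hx⟩)
    refine (h1.add_right x).trans ?_
    have hpos : 0 < B x ^ 2 := Nat.pow_pos (hBpos x)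
    have h3 : B x + x * (B x ^ 2 - 1) + x = B x + B x ^ 2 * x := by
      obtain ⟨c, hc⟩ : ∃ c, B x ^ 2 = c + 1 := ⟨B x ^ 2 - 1, by omega⟩
      rw [hc]; simp; ring
    rw [h3]
    exact Nat.add_mul_mod_self_left _ _ _
  set Q := F ^ 2 * ∏ x ∈ V, B x ^ 2 with hQ
  have hQpos : 0 < Q := Nat.mul_pos (Nat.pow_pos hFpos)
    (Finset.prod_pos (fun x _ => Nat.pow_pos (hBpos x)))
  have hAB : ∀ x ∈ V, Nat.Coprime (n₁ + x) (B x) := fun x hx =>
    Nat.Coprime.coprime_dvd_left (hAF x hx) (hFB x)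
  have hAn : ∀ x ∈ V, n₁ + x ∣ n₂ + x := by
    intro x hx
    rw [(hn₂F.add_right x).dvd_iff ((hAF x hx).trans (dvd_pow_self _ (by norm_num)))]
  have hBn : ∀ x ∈ V, B x ∣ n₂ + x := by
    intro x hx
    rw [(hn₂B x hx).dvd_iff (dvd_pow_self _ (by norm_num))]
  have hGn : ∀ x ∈ V, (n₁ + x) * B x ∣ n₂ + x := fun x hx =>
    Nat.Coprime.mul_dvd_of_dvd_of_dvd (hAB x hx) (hAn x hx) (hBn x hx)
  have hGQ : ∀ x ∈ V, (n₁ + x) * B x ∣ Q := by
    intro x hx
    apply Nat.mul_dvd_mul ((hAF x hx).trans (dvd_pow_self _ (by norm_num)))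
    exact (dvd_pow_self _ (by norm_num)).trans (Finset.dvd_prod_of_mem (fun x => B x ^ 2) hx)
  -- the main claim
  have claim : ∀ x ∈ V, ∀ p : ℕ, p.Prime → p ∣ Q →
      p * ((n₁ + x) * B x) ∣ Q ∧ ¬ p * ((n₁ + x) * B x) ∣ n₂ + x := by
    intro x hx p hp hpQ
    have hpos1 : 0 < n₁ + x := by omega
    rcases hp.dvd_mul.mp hpQ with hpF | hpB
    · have hpF' := hp.dvd_of_dvd_pow hpF
      have h1 : p * (n₁ + x) ∣ F ^ 2 := by
        rw [sq]; exact Nat.mul_dvd_mul hpF' (hAF x hx)
      constructor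
      · rw [← mul_assoc]
        apply Nat.mul_dvd_mul h1
        exact (dvd_pow_self _ (by norm_num)).trans (Finset.dvd_prod_of_mem (fun x => B x ^ 2) hx)
      · intro hcon
        have h2 : p * (n₁ + x) ∣ n₂ + x := by
          refine Dvd.dvd.trans ?_ hcon
          rw [← mul_assoc]; exact Dvd.intro _ rfl
        rw [(hn₂F.add_right x).dvd_iff h1] at h2
        have h3 := Nat.le_of_dvd hpos1 h2
        have h4 := hp.two_le
        nlinarith
    · obtain ⟨y, hy, hpy⟩ := (Prime.dvd_finsetProd_iff hp.prime _).mp hpB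
      have hpy' := hp.dvd_of_dvd_pow hpy
      by_cases hxy : y = x
      · subst hxy
        have h1 : p * B y ∣ B y ^ 2 := by
          rw [sq]; exact Nat.mul_dvd_mul hpy' dvd_rfl
        constructor
        · have e : p * ((n₁ + y) * B y) = (n₁ + y) * (p * B y) := by ring
          rw [e]
          apply Nat.mul_dvd_mul ((hAF y hy).trans (dvd_pow_self _ (by norm_num)))
          exact h1.trans (Finset.dvd_prod_of_mem (fun x => B x ^ 2) hy)
        · intro hcon
          have h2 : p * B y ∣ n₂ + y := by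
            refine Dvd.dvd.trans ?_ hcon
            have e : p * ((n₁ + y) * B y) = (p * B y) * (n₁ + y) := by ring
            rw [e]; exact Dvd.intro _ rfl
          rw [(hn₂B y hy).dvd_iff h1] at h2
          have h3 := Nat.le_of_dvd (hBpos y) h2
          have h4 := hp.two_le
          have h5 := hBpos y
          nlinarith
      · constructor
        · have e : p * ((n₁ + x) * B x) = (n₁ + x) * (B x * p) := by ring
          rw [e]
          apply Nat.mul_dvd_mul ((hAF x hx).trans (dvd_pow_self _ (by norm_num)))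
          rw [← Finset.mul_prod_erase V (fun x => B x ^ 2) hx]
          apply Nat.mul_dvd_mul (dvd_pow_self _ (by norm_num))
          refine hpy.trans ?_
          exact Finset.dvd_prod_of_mem (fun x => B x ^ 2) (mem_erase.mpr ⟨hxy, hy⟩)
        · intro hcon
          have h2 : p ∣ n₂ + x := (Dvd.intro _ rfl).trans hcon
          have h3 : p ∣ n₂ + y := hpy'.trans (hBn y hy)
          have hMp := hBprime y p hp hpy'
          have h4 : (p : ℤ) ∣ (x : ℤ) - y := by
            have e1 : (p : ℤ) ∣ (n₂ : ℤ) + x := by exact_mod_cast h2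
            have e2 : (p : ℤ) ∣ (n₂ : ℤ) + y := by exact_mod_cast h3
            have := dvd_sub e1 e2
            have e : (n₂ : ℤ) + x - (n₂ + y) = (x : ℤ) - y := by ring
            rwa [e] at this
          have h5 : (x : ℤ) - y ≠ 0 := by
            intro h0; apply hxy; omega
          have h6 := Int.le_of_dvd (by positivity : (0 : ℤ) < |(x : ℤ) - y|)
            ((dvd_abs _ _).mpr h4)
          have h7 : |(x : ℤ) - y| ≤ M := by
            have := hVM x hx
            have := hVM y hy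
            rw [abs_le]; constructor <;> omega
          omega
  refine ⟨B, n₂, Q, hQpos, ?_, fun x _ => hBpos x, hAB, hBdv, hGn, hGQ, ?_, ?_, ?_⟩
  · refine lt_of_lt_of_le hn₂lt ?_
    rw [Fintype.prod_option]
    simp only
    rw [hQ, Finset.prod_coe_sort V (fun x => B x ^ 2)]
  · intro x hx
    have hGpos : 0 < (n₁ + x) * B x := Nat.mul_pos (by omega) (hBpos x)
    rw [Nat.coprime_iff_gcd_eq_one]
    by_contra hne
    obtain ⟨p, hp, hpd⟩ := Nat.exists_prime_and_dvd hne
    have h1 := hpd.trans (Nat.gcd_dvd_left _ _)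
    have h2 := hpd.trans (Nat.gcd_dvd_right _ _)
    have h3 : p ∣ Q := h1.trans (Nat.div_dvd_of_dvd (hGQ x hx))
    apply (claim x hx p hp h3).2
    obtain ⟨c, hc⟩ := h2
    rw [← Nat.div_mul_cancel (hGn x hx), hc]
    have e : p * c * ((n₁ + x) * B x) = p * ((n₁ + x) * B x) * c := by ring
    rw [e]; exact Dvd.intro _ rfl
  · intro x hx p hp hor
    have hGpos : 0 < (n₁ + x) * B x := Nat.mul_pos (by omega) (hBpos x)
    have hpQ : p ∣ Q := by
      rcases hor with h | h
      · have : p ∣ F := ((hp.dvd_factorial).mpr h).mul_right _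
        exact (this.trans (dvd_pow_self _ (by norm_num))).mul_right _
      · exact h.trans (hGQ x hx)
    obtain ⟨c, hc⟩ := (claim x hx p hp hpQ).1
    refine ⟨c, ?_⟩
    rw [hc]
    have e : p * ((n₁ + x) * B x) * c = (n₁ + x) * B x * (p * c) := by ring
    rw [e]
    exact Nat.mul_div_cancel_left _ hGpos
  · rw [hQ]
    apply Nat.mul_le_mul
    · apply Nat.pow_le_pow_left
      apply Nat.mul_le_mul_left
      calc ∏ x ∈ V, (n₁ + x) ≤ ∏ x ∈ V, 2 ^ a :=
            Finset.prod_le_prod' (fun x hx => (ha x hx).le)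
        _ = _ := by simp
    · calc ∏ x ∈ V, B x ^ 2 ≤ ∏ x ∈ V, ((((2 ^ (V.card * V.card * a) * M) ^ a) ^ V.card) ^ 2) := by
            apply Finset.prod_le_prod'
            intro x hx
            apply Nat.pow_le_pow_left
            calc B x ≤ ∏ x' ∈ V.erase x, ((2 ^ (V.card * V.card * a) * M) ^ a) := by
                  apply Finset.prod_le_prod'
                  intro x' hx'
                  exact hble (x, x') (mem_product.mpr ⟨hx, (mem_erase.mp hx').2⟩)
              _ = ((2 ^ (V.card * V.card * a) * M) ^ a) ^ (V.erase x).card := by simp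
              _ ≤ _ := by
                  apply Nat.pow_le_pow_right (by positivity)
                  exact card_le_card (erase_subset _ _)
        _ = _ := by simp

end Pool.Agent.Lib.MP_f85a7a_nt
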