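import Mathlib

set_option autoImplicit false

/-!
# A good value of the parameter for finitely many linear forms

Finitely many linear forms `a x * m + b x` whose leading coefficients are divisible by all small
primes take, for some `m`, simultaneously squarefree values with few divisors.
-/

namespace Pool.Agent.Lib.MP_f85a7a_nt

open Finset

lemma count_dvd (a b e Y : ℕ) (hab : Nat.Coprime a b) :
    (((range Y).filter (fun m => e ∣ a * m + b)).card : ℝ) ≤ (Y : ℝ) / e + 1 := by
  have h1 : ((range Y).filter (fun m => e ∣ a * m + b)).card ≤ Y / e + 1 := by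
    rw [← card_range (Y / e + 1)]
    apply card_le_card_of_injOn (fun m => m / e)
    · intro m hm
      simp only [coe_filter, mem_range, Set.mem_ofPred_eq] at hm
      simp only [coe_range, Set.mem_Iio]
      exact Nat.lt_succ_of_le (Nat.div_le_div_right hm.1.le)
    · intro m hm m' hm' hmm
      simp only [coe_filter, mem_range, Set.mem_ofPred_eq] at hm hm'
      simp only at hmm
      have hcop : Nat.Coprime e a := by
        have hg1 : Nat.gcd e a ∣ a * m + b := (Nat.gcd_dvd_left e a).trans hm.2
        have hg2 : Nat.gcd e a ∣ b := by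
          have : Nat.gcd e a ∣ a * m := (Nat.gcd_dvd_right e a).mul_right m
          exact (Nat.dvd_add_right this).mp hg1
        have hg3 : Nat.gcd e a ∣ Nat.gcd a b := Nat.dvd_gcd (Nat.gcd_dvd_right e a) hg2
        rw [hab] at hg3
        exact Nat.dvd_one.mp hg3
      have hmod : a * m + b ≡ a * m' + b [MOD e] := by
        have e1 : a * m + b ≡ 0 [MOD e] := (Nat.modEq_zero_iff_dvd).mpr hm.2
        have e2 : a * m' + b ≡ 0 [MOD e] := (Nat.modEq_zero_iff_dvd).mpr hm'.2
        exact e1.trans e2.symm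
      have hmod2 : a * m ≡ a * m' [MOD e] := Nat.ModEq.add_right_cancel' b hmod
      have hmod3 : m ≡ m' [MOD e] := Nat.ModEq.cancel_left_of_coprime hcop hmod2
      have h3 : m % e = m' % e := hmod3
      rw [← Nat.div_add_mod m e, ← Nat.div_add_mod m' e, hmm, h3]
  calc (((range Y).filter (fun m => e ∣ a * m + b)).card : ℝ) ≤ ((Y / e + 1 : ℕ) : ℝ) := by
        exact_mod_cast h1
    _ ≤ (Y : ℝ) / e + 1 := by
        push_cast
        have := @Nat.cast_div_le ℝ _ _ _ Y e
        linarith

lemma card_divisors_le (L Z : ℕ) (hL : L ≠ 0) (hLZ : L ≤ Z * Z) :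
    L.divisors.card ≤ 2 * ((Icc 1 Z).filter (fun e => e ∣ L)).card := by
  classical
  set S := (Icc 1 Z).filter (fun e => e ∣ L) with hS
  have hsub : L.divisors ⊆ S ∪ S.image (fun e => L / e) := by
    intro e he
    have hdvd := Nat.dvd_of_mem_divisors he
    have hpos : 0 < e := Nat.pos_of_mem_divisors he
    rw [mem_union]
    by_cases h : e ≤ Z
    · left
      simp [hS, hdvd, h]; omega
    · right
      rw [mem_image]
      refine ⟨L / e, ?_, Nat.div_div_self hdvd hL⟩
      simp only [hS, mem_filter, mem_Icc]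
      refine ⟨⟨Nat.div_pos (Nat.le_of_dvd (Nat.pos_of_ne_zero hL) hdvd) hpos, ?_⟩,
        Nat.div_dvd_of_dvd hdvd⟩
      by_contra hcon
      push Not at h hcon
      have h1 : e * (L / e) = L := Nat.mul_div_cancel' hdvd
      nlinarith
  calc L.divisors.card ≤ (S ∪ S.image (fun e => L / e)).card := card_le_card hsub
    _ ≤ S.card + (S.image (fun e => L / e)).card := card_union_le _ _
    _ ≤ S.card + S.card := Nat.add_le_add_left card_image_le _
    _ = 2 * S.card := by ring

lemma sum_inv_le_one_add_log (Z : ℕ) : ∑ e ∈ Icc 1 Z, (1 : ℝ) / e ≤ 1 + Real.log Z := by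
  have h := harmonic_le_one_add_log Z
  have h2 : ((harmonic Z : ℚ) : ℝ) = ∑ e ∈ Icc 1 Z, (1 : ℝ) / e := by
    rw [harmonic_eq_sum_Icc]
    push_cast
    simp [one_div]
  rw [← h2]; exact h

theorem exists_good (V : Finset ℕ) (a b : ℕ → ℕ) (H P : ℕ) (hH : 0 < H) (hP : 8 * V.card ≤ P)
    (hP1 : 1 ≤ P) (ha : ∀ x ∈ V, a x ≤ H) (hb0 : ∀ x ∈ V, 0 < b x) (hb : ∀ x ∈ V, b x ≤ H)
    (hab : ∀ x ∈ V, Nat.Coprime (a x) (b x))
    (hprime : ∀ x ∈ V, ∀ p : ℕ, p.Prime → p ≤ P → p ∣ a x) :
    ∃ m : ℕ, ∀ x ∈ V, Squarefree (a x * m + b x) ∧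
      ((a x * m + b x).divisors.card : ℝ) ≤
        8 * (V.card + 1) * (2 + Real.log (8 * (V.card + 1) * H)) := by
  classical
  set N : ℕ := V.card + 1 with hN
  set Y : ℕ := 32 * N ^ 2 * H with hY
  set Z : ℕ := 8 * N * H with hZ
  have hNpos : 0 < N := by omega
  have hYpos : 0 < Y := by positivity
  have hZpos : 0 < Z := by positivity
  have hZZ : Z * Z = 2 * (H * Y) := by rw [hZ, hY]; ring
  set τ : ℝ := 8 * N * (2 + Real.log Z) with hτ
  have hlogZ : 0 ≤ Real.log Z := Real.log_nonneg (by exact_mod_cast hZpos)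
  have hτpos : 0 < τ := by positivity
  have hL : ∀ x ∈ V, ∀ m < Y, a x * m + b x ≤ Z * Z := by
    intro x hx m hm
    have h1 : a x * m + b x ≤ H * Y := by
      have : a x * m + b x ≤ H * m + H := Nat.add_le_add (Nat.mul_le_mul_right _ (ha x hx)) (hb x hx)
      calc _ ≤ H * m + H := this
        _ = H * (m + 1) := by ring
        _ ≤ H * Y := Nat.mul_le_mul_left _ hm
    rw [hZZ]; omega
  -- the weight
  let w : ℕ → ℝ := fun m => ∑ x ∈ V, ((∑ p ∈ Ioc P Z, if p ^ 2 ∣ a x * m + b x then (1 : ℝ) else 0)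
    + ((a x * m + b x).divisors.card : ℝ) / τ)
  have hsum : ∑ m ∈ range Y, w m < ∑ m ∈ range Y, (1 : ℝ) := by
    have e1 : ∑ m ∈ range Y, w m = ∑ x ∈ V, ((∑ p ∈ Ioc P Z,
        (((range Y).filter (fun m => p ^ 2 ∣ a x * m + b x)).card : ℝ))
        + (∑ m ∈ range Y, ((a x * m + b x).divisors.card : ℝ)) / τ) := by
      simp only [w]
      rw [sum_comm]
      apply sum_congr rfl
      intro x _
      rw [sum_add_distrib, sum_comm, sum_div]
      congr 1
      apply sum_congr rfl
      intro p _
      rw [← sum_filter]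
      simp
    rw [e1]
    have e2 : ∀ x ∈ V, (∑ p ∈ Ioc P Z,
        (((range Y).filter (fun m => p ^ 2 ∣ a x * m + b x)).card : ℝ)) ≤ (Y : ℝ) / P + Z := by
      intro x hx
      calc (∑ p ∈ Ioc P Z, (((range Y).filter (fun m => p ^ 2 ∣ a x * m + b x)).card : ℝ))
          ≤ ∑ p ∈ Ioc P Z, ((Y : ℝ) * ((p : ℝ) ^ 2)⁻¹ + 1) := by
            apply sum_le_sum
            intro p hp
            rw [mem_Ioc] at hp
            have := count_dvd (a x) (b x) (p ^ 2) Y (hab x hx)
            push_cast at this
            rw [← div_eq_mul_inv]; exact this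
        _ = (Y : ℝ) * ∑ p ∈ Ioc P Z, ((p : ℝ) ^ 2)⁻¹ + (Ioc P Z).card := by
            rw [sum_add_distrib, mul_sum]; simp
        _ ≤ (Y : ℝ) * (P : ℝ)⁻¹ + Z := by
            have hc : ((Ioc P Z).card : ℝ) ≤ Z := by
              rw [Nat.card_Ioc]; exact_mod_cast Nat.sub_le _ _
            have hs : ∑ p ∈ Ioc P Z, ((p : ℝ) ^ 2)⁻¹ ≤ (P : ℝ)⁻¹ := by
              by_cases hPZ : P ≤ Z
              · have := sum_Ioc_inv_sq_le_sub (α := ℝ) (k := P) (n := Z) (by omega) hPZ
                have h0 : (0 : ℝ) ≤ (Z : ℝ)⁻¹ := by positivity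
                linarith
              · rw [Ioc_eq_empty (by omega)]; simp
            have hY0 : (0 : ℝ) ≤ Y := by positivity
            nlinarith [mul_le_mul_of_nonneg_left hs hY0]
        _ = _ := by rw [div_eq_mul_inv]
    have e3 : ∀ x ∈ V, (∑ m ∈ range Y, ((a x * m + b x).divisors.card : ℝ)) ≤
        2 * (Y * (2 + Real.log Z)) := by
      intro x hx
      calc (∑ m ∈ range Y, ((a x * m + b x).divisors.card : ℝ))
          ≤ ∑ m ∈ range Y, 2 * (((Icc 1 Z).filter (fun e => e ∣ a x * m + b x)).card : ℝ) := by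
            apply sum_le_sum
            intro m hm
            rw [mem_range] at hm
            have := card_divisors_le (a x * m + b x) Z (by have := hb0 x hx; omega) (hL x hx m hm)
            exact_mod_cast this
        _ = 2 * ∑ e ∈ Icc 1 Z, (((range Y).filter (fun m => e ∣ a x * m + b x)).card : ℝ) := by
            rw [← mul_sum]
            congr 1
            have : ∀ m, (((Icc 1 Z).filter (fun e => e ∣ a x * m + b x)).card : ℝ) =
                ∑ e ∈ Icc 1 Z, if e ∣ a x * m + b x then (1 : ℝ) else 0 := by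
              intro m; rw [← sum_filter]; simp
            simp_rw [this]
            rw [sum_comm]
            apply sum_congr rfl
            intro e _
            rw [← sum_filter]; simp
        _ ≤ 2 * ∑ e ∈ Icc 1 Z, ((Y : ℝ) * (1 / e) + 1) := by
            apply mul_le_mul_of_nonneg_left _ (by norm_num)
            apply sum_le_sum
            intro e he
            rw [mem_Icc] at he
            have := count_dvd (a x) (b x) e Y (hab x hx)
            rw [mul_one_div]; exact this
        _ = 2 * ((Y : ℝ) * ∑ e ∈ Icc 1 Z, (1 : ℝ) / e + Z) := by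
            rw [sum_add_distrib, mul_sum]; simp
        _ ≤ 2 * (Y * (2 + Real.log Z)) := by
            have h1 := sum_inv_le_one_add_log Z
            have h2 : (Z : ℝ) ≤ Y := by
              have : Z ≤ Y := by rw [hZ, hY]; nlinarith [Nat.mul_le_mul_left (N*H) hNpos]
              exact_mod_cast this
            have hY0 : (0 : ℝ) ≤ Y := by positivity
            nlinarith [mul_le_mul_of_nonneg_left h1 hY0]
    have hVN : (V.card : ℝ) ≤ N := by rw [hN]; push_cast; linarith
    calc ∑ x ∈ V, ((∑ p ∈ Ioc P Z,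
        (((range Y).filter (fun m => p ^ 2 ∣ a x * m + b x)).card : ℝ))
        + (∑ m ∈ range Y, ((a x * m + b x).divisors.card : ℝ)) / τ)
        ≤ ∑ x ∈ V, (((Y : ℝ) / P + Z) + (2 * (Y * (2 + Real.log Z))) / τ) := by
          apply sum_le_sum
          intro x hx
          apply add_le_add (e2 x hx)
          exact div_le_div_of_nonneg_right (e3 x hx) hτpos.le
      _ = V.card * ((Y : ℝ) / P) + V.card * Z + V.card * ((2 * (Y * (2 + Real.log Z))) / τ) := by
          rw [sum_const, nsmul_eq_mul]; ring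
      _ ≤ Y / 8 + Y / 4 + Y / 4 := by
          have hY0 : (0 : ℝ) < Y := by exact_mod_cast hYpos
          have hP0 : (0 : ℝ) < P := by exact_mod_cast hP1
          have c1 : V.card * ((Y : ℝ) / P) ≤ Y / 8 := by
            have : (8 : ℝ) * V.card ≤ P := by exact_mod_cast hP
            rw [mul_div_assoc', div_le_div_iff₀ hP0 (by norm_num)]
            nlinarith
          have c2 : (V.card : ℝ) * Z ≤ Y / 4 := by
            have h1 : (V.card : ℝ) * Z ≤ N * Z := mul_le_mul_of_nonneg_right hVN (by positivity)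
            have h2 : (N : ℝ) * Z = Y / 4 := by rw [hZ, hY]; push_cast; ring
            linarith
          have c3 : (V.card : ℝ) * ((2 * (Y * (2 + Real.log Z))) / τ) ≤ Y / 4 := by
            have h1 : (V.card : ℝ) * ((2 * (Y * (2 + Real.log Z))) / τ) ≤
                N * ((2 * (Y * (2 + Real.log Z))) / τ) :=
              mul_le_mul_of_nonneg_right hVN (by positivity)
            have h2 : (N : ℝ) * ((2 * (Y * (2 + Real.log Z))) / τ) = Y / 4 := by
              have hN0 : (N : ℝ) ≠ 0 := by positivity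
              have hl : (2 + Real.log Z) ≠ 0 := by positivity
              rw [hτ]; field_simp; norm_num
            linarith
          linarith
      _ < ∑ m ∈ range Y, (1 : ℝ) := by
          have hY0 : (0 : ℝ) < Y := by exact_mod_cast hYpos
          simp
          linarith
  obtain ⟨m, hm, hw⟩ := exists_lt_of_sum_lt hsum
  rw [mem_range] at hm
  refine ⟨m, fun x hx => ?_⟩
  have hterm : (∑ p ∈ Ioc P Z, if p ^ 2 ∣ a x * m + b x then (1 : ℝ) else 0)
      + ((a x * m + b x).divisors.card : ℝ) / τ < 1 := by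
    refine lt_of_le_of_lt ?_ hw
    apply single_le_sum (f := fun x => (∑ p ∈ Ioc P Z, if p ^ 2 ∣ a x * m + b x then (1 : ℝ) else 0)
      + ((a x * m + b x).divisors.card : ℝ) / τ) _ hx
    intro y _
    apply add_nonneg
    · apply sum_nonneg; intro p _; split_ifs <;> norm_num
    · positivity
  have hpart2 : 0 ≤ ((a x * m + b x).divisors.card : ℝ) / τ := by positivity
  have hpart1 : 0 ≤ ∑ p ∈ Ioc P Z, if p ^ 2 ∣ a x * m + b x then (1 : ℝ) else 0 := by
    apply sum_nonneg; intro p _; split_ifs <;> norm_num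
  constructor
  · rw [Nat.squarefree_iff_prime_squarefree]
    intro p hp hdvd
    have hLpos : 0 < a x * m + b x := by have := hb0 x hx; omega
    have hpP : P < p := by
      by_contra hcon
      push Not at hcon
      have h1 := hprime x hx p hp hcon
      have h2 : p ∣ a x * m + b x := (Dvd.intro _ rfl).trans hdvd
      have h3 : p ∣ b x := (Nat.dvd_add_right (h1.mul_right m)).mp h2
      have h4 : p ∣ Nat.gcd (a x) (b x) := Nat.dvd_gcd h1 h3
      rw [hab x hx] at h4
      exact hp.one_lt.ne' (Nat.dvd_one.mp h4)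
    have hpZ : p ≤ Z := by
      have h1 : p * p ≤ Z * Z := le_trans (Nat.le_of_dvd hLpos hdvd) (hL x hx m hm)
      exact Nat.mul_self_le_mul_self_iff.mp h1
    have h5 : (1 : ℝ) ≤ ∑ p ∈ Ioc P Z, if p ^ 2 ∣ a x * m + b x then (1 : ℝ) else 0 := by
      have := single_le_sum (f := fun p => if p ^ 2 ∣ a x * m + b x then (1 : ℝ) else 0)
        (s := Ioc P Z) (fun q _ => by split_ifs <;> norm_num) (mem_Ioc.mpr ⟨hpP, hpZ⟩)
      rw [if_pos (by rw [sq]; exact hdvd)] at this
      exact this
    linarith
  · have h1 : ((a x * m + b x).divisors.card : ℝ) / τ < 1 := by linarith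
    rw [div_lt_one hτpos] at h1
    have h2 : τ = 8 * (V.card + 1) * (2 + Real.log (8 * (V.card + 1) * H)) := by
      rw [hτ, hZ, hN]; push_cast; ring_nf
    rw [← h2]; exact h1.le

end Pool.Agent.Lib.MP_f85a7a_nt
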