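import Mathlib
import Pool.Agent.Lib.MP_f85a7a_nt.Labels
import Pool.Agent.Lib.MP_f85a7a_nt.Random
import Pool.Agent.Lib.MP_f85a7a_nt.Modulus

set_option autoImplicit false

/-!
# Runs of consecutive integers with equally many divisors
-/

namespace Pool.Agent.Lib.MP_f85a7a_nt

open Finset

lemma dv_squarefree {L : ℕ} (hL : Squarefree L) : dv L = 2 ^ L.primeFactors.card := by
  rw [dv, Nat.card_divisors hL.ne_zero]
  rw [Finset.prod_congr rfl (g := fun _ => 2)]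
  · simp
  · intro p hp
    have hpp := Nat.prime_of_mem_primeFactors hp
    have h1 := hL.natFactorization_le_one p
    have h2 := hpp.factorization_pos_of_dvd hL.ne_zero (Nat.dvd_of_mem_primeFactors hp)
    omega

/-! ### digits -/

section digits

variable {k s : ℕ}

/-- the integer with digits `e` -/
def kap (e : Fin k → Fin s) : ℕ := ∑ i : Fin k, (e i : ℕ) * s ^ (i : ℕ)

/-- the weighted digit sum -/
def mu (e : Fin k → Fin s) : ℕ := ∑ i : Fin k, (i : ℕ) * ((e i : ℕ) * s ^ (i : ℕ))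

lemma kap_inj : Function.Injective (kap : (Fin k → Fin s) → ℕ) := by
  intro e e' h
  apply finFunctionFinEquiv.injective
  apply Fin.ext
  simpa [kap, finFunctionFinEquiv_apply] using h

lemma kap_lt (e : Fin k → Fin s) : kap e < s ^ k := by
  have := (finFunctionFinEquiv e).2
  simpa [kap, finFunctionFinEquiv_apply] using this

lemma mu_le (e : Fin k → Fin s) : mu e ≤ k * s ^ k := by
  calc mu e ≤ ∑ i : Fin k, k * ((e i : ℕ) * s ^ (i : ℕ)) := by
        rw [mu]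
        apply sum_le_sum
        intro i _
        exact Nat.mul_le_mul_right _ i.2.le
    _ = k * kap e := by rw [kap, mul_sum]
    _ ≤ k * s ^ k := Nat.mul_le_mul_left _ (kap_lt e).le

lemma kap_mu_indep (C : ℕ) (hC : ∀ e : Fin k → Fin s, mu e ≤ C) (j : Fin k)
    (e e' : Fin k → Fin s) (h : ∀ i, i ≠ j → e i = e' i) :
    (C - mu e) + j * kap e = (C - mu e') + j * kap e' := by
  have h1 := hC e
  have h2 := hC e'
  have key : (j : ℤ) * kap e - mu e = j * kap e' - mu e' := by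
    have aux : ∀ f : Fin k → Fin s, (j : ℤ) * kap f - mu f =
        ∑ i : Fin k, ((j : ℤ) - i) * ((f i : ℕ) * (s : ℤ) ^ (i : ℕ)) := by
      intro f
      rw [kap, mu]
      push_cast
      rw [mul_sum, ← sum_sub_distrib]
      apply sum_congr rfl
      intro i _
      ring
    rw [aux, aux]
    apply sum_congr rfl
    intro i _
    by_cases hij : i = j
    · subst hij; simp
    · rw [h i hij]
  zify [h1, h2]
  linarith

end digits

/-! ### sizes -/

lemma factorial_le (P : ℕ) : P.factorial ≤ 2 ^ (P ^ 2) := by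
  calc P.factorial ≤ P ^ P := Nat.factorial_le_pow P
    _ ≤ (2 ^ P) ^ P := Nat.pow_le_pow_left (Nat.lt_two_pow_self).le _
    _ = 2 ^ (P ^ 2) := by rw [← pow_mul, sq]

lemma size_theta {ι : Type*} [Fintype ι] (P R : ℕ) (r : ι → ℕ) (hP : 2 ≤ P)
    (hι : Fintype.card ι ≤ P) (hR : R ≤ P) (hr : ∀ i, r i ≤ R) :
    P.factorial * ∏ i : ι, ((2 ^ (∑ i : ι, r i) * P) ^ r i) ^ 4 ≤ 2 ^ (P ^ 8) := by
  have h1 : ∑ i : ι, r i ≤ P ^ 2 := by
    calc ∑ i : ι, r i ≤ ∑ i : ι, P := sum_le_sum (fun i _ => (hr i).trans hR)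
      _ = Fintype.card ι * P := by simp
      _ ≤ P * P := Nat.mul_le_mul_right _ hι
      _ = P ^ 2 := (sq P).symm
  have h2 : 2 ^ (∑ i : ι, r i) * P ≤ 2 ^ (P ^ 2 + P) := by
    rw [pow_add]
    exact Nat.mul_le_mul (Nat.pow_le_pow_right (by norm_num) h1) (Nat.lt_two_pow_self).le
  have h3 : ∀ i, ((2 ^ (∑ i : ι, r i) * P) ^ r i) ^ 4 ≤ 2 ^ ((P ^ 2 + P) * P * 4) := by
    intro i
    calc ((2 ^ (∑ i : ι, r i) * P) ^ r i) ^ 4 ≤ ((2 ^ (P ^ 2 + P)) ^ r i) ^ 4 :=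
          Nat.pow_le_pow_left (Nat.pow_le_pow_left h2 _) _
      _ ≤ ((2 ^ (P ^ 2 + P)) ^ P) ^ 4 :=
          Nat.pow_le_pow_left (Nat.pow_le_pow_right (by positivity) ((hr i).trans hR)) _
      _ = _ := by rw [← pow_mul, ← pow_mul, mul_assoc]
  calc P.factorial * ∏ i : ι, ((2 ^ (∑ i : ι, r i) * P) ^ r i) ^ 4
      ≤ 2 ^ (P ^ 2) * ∏ i : ι, 2 ^ ((P ^ 2 + P) * P * 4) :=
        Nat.mul_le_mul (factorial_le P) (Finset.prod_le_prod' (fun i _ => h3 i))
    _ = 2 ^ (P ^ 2 + (P ^ 2 + P) * P * 4 * Fintype.card ι) := by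
        rw [pow_add, prod_const, card_univ, ← pow_mul]
    _ ≤ 2 ^ (P ^ 8) := by
        apply Nat.pow_le_pow_right (by norm_num)
        have h4 : (P ^ 2 + P) * P * 4 * Fintype.card ι ≤ (P ^ 2 + P) * P * 4 * P :=
          Nat.mul_le_mul_left _ hι
        have h5 : P ^ 8 = P ^ 2 * P ^ 6 := by ring
        have h6 : 64 ≤ P ^ 6 := by
          calc 64 = 2 ^ 6 := by norm_num
            _ ≤ P ^ 6 := Nat.pow_le_pow_left hP 6
        nlinarith [h4, h6, Nat.pow_le_pow_left hP 2, Nat.pow_le_pow_left hP 3,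
          Nat.pow_le_pow_left hP 4, pow_pos (show 0 < P by omega) 4]

lemma size_D (P θ κ : ℕ) (hP : 2 ≤ P) (hθ : θ ≤ 2 ^ (P ^ 8)) (hκ : κ ≤ P) :
    θ + κ * P.factorial ≤ 2 ^ (P ^ 9) := by
  have h1 : κ * P.factorial ≤ 2 ^ (P ^ 8) := by
    calc κ * P.factorial ≤ 2 ^ P * 2 ^ (P ^ 2) :=
          Nat.mul_le_mul (hκ.trans (Nat.lt_two_pow_self).le) (factorial_le P)
      _ = 2 ^ (P + P ^ 2) := by rw [pow_add]
      _ ≤ 2 ^ (P ^ 8) := by
          apply Nat.pow_le_pow_right (by norm_num)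
          have h5 : P ^ 8 = P ^ 2 * P ^ 6 := by ring
          have h6 : 64 ≤ P ^ 6 := by
            calc 64 = 2 ^ 6 := by norm_num
              _ ≤ P ^ 6 := Nat.pow_le_pow_left hP 6
          nlinarith
  calc θ + κ * P.factorial ≤ 2 ^ (P ^ 8) + 2 ^ (P ^ 8) := Nat.add_le_add hθ h1
    _ = 2 ^ (P ^ 8 + 1) := by rw [pow_succ]; ring
    _ ≤ 2 ^ (P ^ 9) := by
        apply Nat.pow_le_pow_right (by norm_num)
        have h5 : P ^ 9 = P * P ^ 8 := by ring
        have h6 : 1 ≤ P ^ 8 := Nat.one_le_pow _ _ (by omega)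
        nlinarith

lemma size_n {ι : Type*} [Fintype ι] (P : ℕ) (D : ι → ℕ) (hP : 2 ≤ P)
    (hι : Fintype.card ι ≤ P) (hD : ∀ i, D i ≤ 2 ^ (P ^ 9)) :
    2 * ∏ i, D i ^ 2 ≤ 2 ^ (P ^ 12) := by
  calc 2 * ∏ i, D i ^ 2 ≤ 2 * ∏ i : ι, (2 ^ (P ^ 9)) ^ 2 := by
        apply Nat.mul_le_mul_left
        exact Finset.prod_le_prod' (fun i _ => Nat.pow_le_pow_left (hD i) 2)
    _ = 2 ^ (P ^ 9 * 2 * Fintype.card ι + 1) := by
        rw [prod_const, card_univ, ← pow_mul, ← pow_mul, pow_succ]; ring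
    _ ≤ 2 ^ (P ^ 12) := by
        apply Nat.pow_le_pow_right (by norm_num)
        have h1 : P ^ 9 * 2 * Fintype.card ι ≤ P ^ 9 * 2 * P := Nat.mul_le_mul_left _ hι
        have h2 : P ^ 12 = P ^ 2 * P ^ 10 := by ring
        have h3 : 1 ≤ P ^ 10 := Nat.one_le_pow _ _ (by omega)
        have h4 : P ^ 9 * 2 * P = 2 * P ^ 10 := by ring
        have h5 : 4 ≤ P ^ 2 := by nlinarith
        nlinarith

lemma size_x (P b j D : ℕ) (hP : 2 ≤ P) (hb : b ≤ P) (hj : j ≤ P) (hD : D ≤ 2 ^ (P ^ 9)) :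
    P.factorial * b + j * D ≤ 2 ^ (P ^ 12) := by
  have h1 : P.factorial * b ≤ 2 ^ (P ^ 2 + P) := by
    rw [pow_add]
    exact Nat.mul_le_mul (factorial_le P) (hb.trans (Nat.lt_two_pow_self).le)
  have h2 : j * D ≤ 2 ^ (P + P ^ 9) := by
    rw [pow_add]
    exact Nat.mul_le_mul (hj.trans (Nat.lt_two_pow_self).le) hD
  have h8 : 1 ≤ P ^ 8 := Nat.one_le_pow _ _ (by omega)
  have h10 : P + P ^ 9 ≤ P ^ 11 := by
    have e : P ^ 11 = P * (P * P ^ 9) := by ring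
    have h9 : 1 ≤ P ^ 9 := Nat.one_le_pow _ _ (by omega)
    have h3 : P * P ^ 9 ≥ 2 * P ^ 9 := Nat.mul_le_mul_right _ hP
    nlinarith
  have h11 : P ^ 2 + P ≤ P ^ 11 := by
    have e : P ^ 11 = P ^ 2 * P ^ 9 := by ring
    have h9 : 2 ≤ P ^ 9 := by
      calc 2 ≤ P := hP
        _ = P ^ 1 := (pow_one P).symm
        _ ≤ P ^ 9 := Nat.pow_le_pow_right (by omega) (by norm_num)
    nlinarith
  calc P.factorial * b + j * D ≤ 2 ^ (P ^ 11) + 2 ^ (P ^ 11) :=
        Nat.add_le_add (h1.trans (Nat.pow_le_pow_right (by norm_num) h11))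
          (h2.trans (Nat.pow_le_pow_right (by norm_num) h10))
    _ = 2 ^ (P ^ 11 + 1) := by rw [pow_succ]; ring
    _ ≤ 2 ^ (P ^ 12) := by
        apply Nat.pow_le_pow_right (by norm_num)
        have h5 : P ^ 12 = P * P ^ 11 := by ring
        have h6 : 1 ≤ P ^ 11 := Nat.one_le_pow _ _ (by omega)
        nlinarith

lemma size_a (P n x : ℕ) (hP : 2 ≤ P) (hn : n ≤ 2 ^ (P ^ 12)) (hx : x ≤ 2 ^ (P ^ 12)) :
    n + x < 2 ^ (P ^ 14) := by
  calc n + x ≤ 2 ^ (P ^ 12) + 2 ^ (P ^ 12) := Nat.add_le_add hn hx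
    _ = 2 ^ (P ^ 12 + 1) := by rw [pow_succ]; ring
    _ < 2 ^ (P ^ 14) := by
        apply Nat.pow_lt_pow_right (by norm_num)
        have h5 : P ^ 14 = P ^ 2 * P ^ 12 := by ring
        have h6 : 1 ≤ P ^ 12 := Nat.one_le_pow _ _ (by omega)
        have h7 : 4 ≤ P ^ 2 := Nat.pow_le_pow_left hP 2
        rw [h5]
        nlinarith

lemma size_Q (P v : ℕ) (hP : 2 ≤ P) (hv : v ≤ P) :
    (P.factorial * (2 ^ (P ^ 14)) ^ v) ^ 2 *
      ((((2 ^ (v * v * (P ^ 14)) * 2 ^ (P ^ 14)) ^ (P ^ 14)) ^ v) ^ 2) ^ v ≤ 2 ^ (P ^ 36) := by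
  have h1 : (P.factorial * (2 ^ (P ^ 14)) ^ v) ^ 2 ≤ 2 ^ ((P ^ 2 + P ^ 14 * P) * 2) := by
    calc (P.factorial * (2 ^ (P ^ 14)) ^ v) ^ 2 ≤ (2 ^ (P ^ 2) * (2 ^ (P ^ 14)) ^ P) ^ 2 := by
          apply Nat.pow_le_pow_left
          exact Nat.mul_le_mul (factorial_le P) (Nat.pow_le_pow_right (by positivity) hv)
      _ = _ := by rw [← pow_mul, ← pow_add, ← pow_mul]
  have h2 : ((((2 ^ (v * v * (P ^ 14)) * 2 ^ (P ^ 14)) ^ (P ^ 14)) ^ v) ^ 2) ^ v ≤
      2 ^ ((P * P * P ^ 14 + P ^ 14) * P ^ 14 * P * 2 * P) := by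
    calc ((((2 ^ (v * v * (P ^ 14)) * 2 ^ (P ^ 14)) ^ (P ^ 14)) ^ v) ^ 2) ^ v
        = 2 ^ ((v * v * P ^ 14 + P ^ 14) * P ^ 14 * v * 2 * v) := by
          rw [← pow_add, ← pow_mul, ← pow_mul, ← pow_mul, ← pow_mul]
          congr 1; ring
      _ ≤ _ := by
          apply Nat.pow_le_pow_right (by norm_num)
          gcongr
  calc _ ≤ 2 ^ ((P ^ 2 + P ^ 14 * P) * 2) *
      2 ^ ((P * P * P ^ 14 + P ^ 14) * P ^ 14 * P * 2 * P) := Nat.mul_le_mul h1 h2
    _ = 2 ^ ((P ^ 2 + P ^ 14 * P) * 2 + (P * P * P ^ 14 + P ^ 14) * P ^ 14 * P * 2 * P) := by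
        rw [pow_add]
    _ ≤ 2 ^ (P ^ 36) := by
        apply Nat.pow_le_pow_right (by norm_num)
        have e1 : (P ^ 2 + P ^ 14 * P) * 2 + (P * P * P ^ 14 + P ^ 14) * P ^ 14 * P * 2 * P =
            2 * P ^ 2 + 2 * P ^ 15 + 2 * P ^ 32 + 2 * P ^ 30 := by ring
        rw [e1]
        have hP0 : 0 < P := by omega
        have a1 : P ^ 2 ≤ P ^ 32 := Nat.pow_le_pow_right hP0 (by norm_num)
        have a2 : P ^ 15 ≤ P ^ 32 := Nat.pow_le_pow_right hP0 (by norm_num)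
        have a3 : P ^ 30 ≤ P ^ 32 := Nat.pow_le_pow_right hP0 (by norm_num)
        have a4 : P ^ 36 = P ^ 4 * P ^ 32 := by ring
        have a5 : 16 ≤ P ^ 4 := by
          calc 16 = 2 ^ 4 := by norm_num
            _ ≤ P ^ 4 := Nat.pow_le_pow_left hP 4
        nlinarith [pow_pos hP0 32]

lemma size_final (P v H R : ℕ) (hP : 2 ≤ P) (hv : 8 * (v + 1) ≤ P) (hH : H ≤ 2 ^ (P ^ 37))
    (hH0 : 0 < H) (hR : P ^ 40 ≤ 2 ^ R) :
    8 * ((v : ℝ) + 1) * (2 + Real.log (8 * ((v : ℝ) + 1) * H)) ≤ (2 : ℝ) ^ R := by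
  have hv' : 8 * ((v : ℝ) + 1) ≤ P := by exact_mod_cast hv
  have hPpos : (0 : ℝ) < P := by exact_mod_cast (show 0 < P by omega)
  have h1 : Real.log (8 * ((v : ℝ) + 1) * H) ≤ (P : ℝ) ^ 38 := by
    have h2 : 8 * ((v : ℝ) + 1) * H ≤ 2 ^ (P ^ 38) := by
      have h3 : 8 * (v + 1) * H ≤ 2 ^ (P ^ 38) := by
        calc 8 * (v + 1) * H ≤ 2 ^ P * 2 ^ (P ^ 37) :=
              Nat.mul_le_mul (hv.trans (Nat.lt_two_pow_self).le) hH
          _ = 2 ^ (P + P ^ 37) := by rw [pow_add]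
          _ ≤ 2 ^ (P ^ 38) := by
              apply Nat.pow_le_pow_right (by norm_num)
              have e : P ^ 38 = P * P ^ 37 := by ring
              have h4 : P ≤ P ^ 37 := Nat.le_self_pow (by norm_num) P
              nlinarith
      exact_mod_cast h3
    have hpos : (0 : ℝ) < 8 * ((v : ℝ) + 1) * H := by
      have : (0 : ℝ) < H := by exact_mod_cast hH0
      positivity
    calc Real.log (8 * ((v : ℝ) + 1) * H) ≤ Real.log (2 ^ (P ^ 38)) := Real.log_le_log hpos h2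
      _ = (P ^ 38 : ℕ) * Real.log 2 := by rw [Real.log_pow]
      _ ≤ (P ^ 38 : ℕ) * 1 := by
          apply mul_le_mul_of_nonneg_left _ (by positivity)
          have := Real.log_two_lt_d9
          linarith
      _ = (P : ℝ) ^ 38 := by push_cast; ring
  calc 8 * ((v : ℝ) + 1) * (2 + Real.log (8 * ((v : ℝ) + 1) * H))
      ≤ P * (2 + (P : ℝ) ^ 38) := by
        apply mul_le_mul hv' (by linarith) _ hPpos.le
        have : 0 ≤ Real.log (8 * ((v : ℝ) + 1) * H) := by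
          apply Real.log_nonneg
          have h5 : (1 : ℝ) ≤ H := by exact_mod_cast hH0
          have h6 : (0 : ℝ) ≤ v := by positivity
          nlinarith
        linarith
    _ ≤ (P : ℝ) ^ 40 := by
        have h2 : (2 : ℝ) ≤ P := by exact_mod_cast hP
        have h3 : (1 : ℝ) ≤ (P : ℝ) ^ 38 := one_le_pow₀ (by linarith)
        have e : (P : ℝ) ^ 40 = P * (P * (P : ℝ) ^ 38) := by ring
        rw [e]
        apply mul_le_mul_of_nonneg_left _ hPpos.le
        nlinarith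
    _ ≤ (2 : ℝ) ^ R := by exact_mod_cast hR

lemma size_H (P Q : ℕ) (hP : 2 ≤ P) (hQ : Q ≤ 2 ^ (P ^ 36)) :
    Q + 2 ^ (P ^ 14) ≤ 2 ^ (P ^ 37) := by
  have hP0 : 0 < P := by omega
  calc Q + 2 ^ (P ^ 14) ≤ 2 ^ (P ^ 36) + 2 ^ (P ^ 36) :=
        Nat.add_le_add hQ (Nat.pow_le_pow_right (by norm_num)
          (Nat.pow_le_pow_right hP0 (by norm_num)))
    _ = 2 ^ (P ^ 36 + 1) := by rw [pow_succ]; ring
    _ ≤ 2 ^ (P ^ 37) := by
        apply Nat.pow_le_pow_right (by norm_num)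
        have h5 : P ^ 37 = P * P ^ 36 := by ring
        have h6 : 1 ≤ P ^ 36 := Nat.one_le_pow _ _ hP0
        nlinarith

/-- choice of the number of colours -/
lemma exists_R (k : ℕ) : ∃ R : ℕ,
    (8 * (k + 1) * (((R + 1) ^ k) ^ 2) ^ k + k + R + 2) ^ 40 ≤ 2 ^ R := by
  set d := 2 * k * k + 1 with hd
  set c := 8 * (k + 1) + k + 3 with hc
  have h1 : Filter.Tendsto (fun n : ℕ => (n : ℝ) ^ (40 * d) / (2 : ℝ) ^ n) Filter.atTop (nhds 0) :=
    tendsto_pow_const_div_const_pow_of_one_lt (40 * d) (by norm_num)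
  have h2 : ∀ᶠ n : ℕ in Filter.atTop, (n : ℝ) ^ (40 * d) / (2 : ℝ) ^ n < 1 / (2 * (c : ℝ) ^ 40) := by
    apply h1.eventually_lt_const
    positivity
  obtain ⟨n, hn, hn1⟩ := (h2.and (Filter.eventually_ge_atTop 1)).exists
  obtain ⟨R, rfl⟩ : ∃ R, n = R + 1 := ⟨n - 1, by omega⟩
  refine ⟨R, ?_⟩
  have h3 : 8 * (k + 1) * (((R + 1) ^ k) ^ 2) ^ k + k + R + 2 ≤ c * (R + 1) ^ d := by
    have e1 : (((R + 1) ^ k) ^ 2) ^ k = (R + 1) ^ (2 * k * k) := by
      rw [← pow_mul, ← pow_mul]; ring_nf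
    rw [e1]
    have h4 : 1 ≤ (R + 1) ^ (2 * k * k) := Nat.one_le_pow _ _ (by omega)
    have h5 : (R + 1) ^ d = (R + 1) ^ (2 * k * k) * (R + 1) := by rw [hd, pow_succ]
    rw [h5, hc]
    have h6 : (R + 1) ^ (2 * k * k) ≤ (R + 1) ^ (2 * k * k) * (R + 1) :=
      Nat.le_mul_of_pos_right _ (by omega)
    have h7 : R + 1 ≤ (R + 1) ^ (2 * k * k) * (R + 1) := Nat.le_mul_of_pos_left _ (by omega)
    have h8 : 1 ≤ (R + 1) ^ (2 * k * k) * (R + 1) := h4.trans h6
    nlinarith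
  have h9 : (c * (R + 1) ^ d) ^ 40 ≤ 2 ^ R := by
    have h10 : ((c : ℝ) * ((R : ℝ) + 1) ^ d) ^ 40 ≤ 2 ^ R := by
      have hcpos : (0 : ℝ) < (c : ℝ) ^ 40 := by positivity
      rw [div_lt_div_iff₀ (by positivity) (by positivity)] at hn
      push_cast at hn
      have e2 : ((c : ℝ) * ((R : ℝ) + 1) ^ d) ^ 40 = (c : ℝ) ^ 40 * ((R : ℝ) + 1) ^ (40 * d) := by
        rw [mul_pow, ← pow_mul]; ring_nf
      rw [e2]
      have e3 : (2 : ℝ) ^ (R + 1) = 2 * 2 ^ R := by rw [pow_succ]; ring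
      rw [e3] at hn
      nlinarith
    exact_mod_cast h10
  exact (Nat.pow_le_pow_left h3 40).trans h9

/-- **Main theorem**: there are arbitrarily long runs of consecutive positive integers with the
same number of divisors. -/
theorem exists_run (k : ℕ) : ∃ n : ℕ, 0 < n ∧ ∀ i < k, dv (n + i) = dv n := by
  classical
  rcases Nat.eq_zero_or_pos k with rfl | hk
  · exact ⟨1, one_pos, fun i hi => absurd hi (by omega)⟩
  obtain ⟨R, hR⟩ := exists_R k
  set s := ((R + 1) ^ k) ^ 2 with hs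
  have hspos : 0 < s := by positivity
  set P := 8 * (k + 1) * s ^ k + k + R + 2 with hPdef
  have hsk : 1 ≤ s ^ k := Nat.one_le_pow _ _ hspos
  have hP2 : 2 ≤ P := by omega
  have hP1 : 1 ≤ P := by omega
  have hkP : k < P := by omega
  have hRP : R ≤ P := by omega
  have hskP : s ^ k ≤ P := by
    have : s ^ k ≤ 8 * (k + 1) * s ^ k := Nat.le_mul_of_pos_left _ (by positivity)
    omega
  have hkskP : k * s ^ k ≤ P := by
    have : k * s ^ k ≤ 8 * (k + 1) * s ^ k := Nat.mul_le_mul_right _ (by omega)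
    omega
  -- labels
  obtain ⟨r, hrR, hr⟩ := exists_labels k R s le_rfl
  -- differences
  obtain ⟨θ, Q, hDp, hDcop, hQpos, -, hQD, hQcop, hQdv, hθ⟩ :=
    exists_theta k P (Fin k → Fin s) kap kap_inj
      (fun e => lt_of_lt_of_le (kap_lt e) hskP) hP2 r
  have hcardE : Fintype.card (Fin k → Fin s) = s ^ k := by simp
  have hcardI : Fintype.card ((Fin k → Fin s) × Fin k) ≤ P := by
    rw [Fintype.card_prod, hcardE, Fintype.card_fin, mul_comm]; exact hkskP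
  have hθle : θ ≤ 2 ^ (P ^ 8) :=
    hθ.le.trans (size_theta P R (fun i : (Fin k → Fin s) × Fin k => r i.1 i.2) hP2 hcardI hRP
      (fun i => hrR i.1 i.2))
  set D : (Fin k → Fin s) → ℕ := fun e => θ + kap e * P.factorial with hD
  have hD0 : ∀ e, D e ≠ 0 := by
    intro e h0
    have := hDp e 2 Nat.prime_two (by
      show 2 ∣ D e
      rw [h0]; exact dvd_zero _)
    omega
  have hDle : ∀ e, D e ≤ 2 ^ (P ^ 9) := fun e =>
    size_D P θ (kap e) hP2 hθle ((kap_lt e).le.trans hskP)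
  set b : (Fin k → Fin s) → ℕ := fun e => P.factorial * (k * s ^ k - mu e) with hb
  -- translation
  obtain ⟨n₁, hn₁, hn₁D, hn₁dv, hn₁le⟩ := exists_translation k (Fin k → Fin s) D b r hD0 hDcop
    (fun e => exists_u k (D e) (Q e) (r e) (hD0 e)
      (fun p hp hpd => lt_trans hkP (hDp e p hp hpd)) (hQpos e) (hQD e) (hQcop e) (hQdv e))
  have hn₁le' : n₁ ≤ 2 ^ (P ^ 12) :=
    hn₁le.trans (size_n P D hP2 (by rw [hcardE]; exact hskP) hDle)
  -- vertices
  let y : (Fin k → Fin s) → Fin k → ℕ := fun e j => b e + j * D e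
  have hyind : ∀ (j : Fin k) (e e' : Fin k → Fin s), (∀ i, i ≠ j → e i = e' i) → y e j = y e' j := by
    intro j e e' h
    have h1 := kap_mu_indep (k * s ^ k) mu_le j e e' h
    have h2 : ∀ f : Fin k → Fin s, y f j =
        P.factorial * ((k * s ^ k - mu f) + j * kap f) + j * θ := by
      intro f
      simp only [y, hb, hD]; ring
    rw [h2, h2, h1]
  let V : Finset ℕ := (univ : Finset ((Fin k → Fin s) × Fin k)).image (fun z => y z.1 z.2)
  have hyV : ∀ e j, y e j ∈ V := fun e j => mem_image.mpr ⟨(e, j), mem_univ _, rfl⟩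
  have hVcard : V.card ≤ k * s ^ k := by
    refine card_image_le.trans ?_
    rw [card_univ, Fintype.card_prod, hcardE, Fintype.card_fin, mul_comm]
  have hV8 : 8 * (V.card + 1) ≤ P := by
    have h1 : 8 * (V.card + 1) ≤ 8 * (k * s ^ k + 1) := by omega
    have h2 : 8 * (k * s ^ k + 1) ≤ 8 * (k + 1) * s ^ k := by nlinarith
    omega
  have hxle : ∀ x ∈ V, x ≤ 2 ^ (P ^ 12) := by
    intro x hx
    obtain ⟨⟨e, j⟩, -, rfl⟩ := mem_image.mp hx
    exact size_x P (k * s ^ k - mu e) j (D e) hP2 ((Nat.sub_le _ _).trans hkskP)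
      (j.2.le.trans hkP.le) (hDle e)
  have hxa : ∀ x ∈ V, n₁ + x < 2 ^ (P ^ 14) := fun x hx =>
    size_a P n₁ x hP2 hn₁le' (hxle x hx)
  -- modulus
  obtain ⟨B, n₂, q, hq0, hn₂q, hB0, hAB, hBdv, hGn, hGq, hcopq, hqp, hqle⟩ :=
    exists_modulus V n₁ P (2 ^ (P ^ 14)) (P ^ 14) hn₁ (Nat.one_le_two_pow)
      ((Nat.le_self_pow (by norm_num) P).trans (Nat.lt_two_pow_self).le)
      (fun x hx => (hxa x hx).le) hxa
  have hq36 : q ≤ 2 ^ (P ^ 36) := hqle.trans (size_Q P V.card hP2 (by omega))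
  have hG0 : ∀ x ∈ V, 0 < (n₁ + x) * B x := fun x hx => Nat.mul_pos (by omega) (hB0 x hx)
  have hb0 : ∀ x ∈ V, 0 < (n₂ + x) / ((n₁ + x) * B x) := by
    intro x hx
    by_contra hcon
    have h0 : (n₂ + x) / ((n₁ + x) * B x) = 0 := Nat.eq_zero_of_not_pos hcon
    have h1 := hcopq x hx
    rw [h0, Nat.coprime_zero_right] at h1
    have h2 := hqp x hx 2 Nat.prime_two (Or.inl hP2)
    rw [h1] at h2
    norm_num at h2
  -- the good parameter
  obtain ⟨m, hm⟩ := exists_good V (fun x => q / ((n₁ + x) * B x))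
    (fun x => (n₂ + x) / ((n₁ + x) * B x)) (q + 2 ^ (P ^ 14)) P (Nat.add_pos_left hq0 _)
    (by omega) hP1 (fun x hx => (Nat.div_le_self _ _).trans (Nat.le_add_right _ _)) hb0
    (fun x hx => (Nat.div_le_self _ _).trans (Nat.add_le_add hn₂q.le
      (lt_of_le_of_lt (Nat.le_add_left x n₁) (hxa x hx)).le)) hcopq
    (fun x hx p hp hpP => hqp x hx p hp (Or.inl hpP))
  set L : ℕ → ℕ := fun x => q / ((n₁ + x) * B x) * m + (n₂ + x) / ((n₁ + x) * B x) with hL
  have hLsq : ∀ x ∈ V, Squarefree (L x) := fun x hx => (hm x hx).1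
  have hLω : ∀ x ∈ V, (L x).primeFactors.card ≤ R := by
    intro x hx
    have h1 := (hm x hx).2
    have h2 := size_final P V.card (q + 2 ^ (P ^ 14)) R hP2 hV8 (size_H P q hP2 hq36) (by positivity) hR
    have h3 : ((L x).divisors.card : ℝ) ≤ 2 ^ R := by
      refine le_trans ?_ h2
      exact h1
    have h4 : dv (L x) ≤ 2 ^ R := by exact_mod_cast h3
    rw [dv_squarefree (hLsq x hx)] at h4
    exact (Nat.pow_le_pow_iff_right (by norm_num)).mp h4
  -- the matched edge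
  obtain ⟨σ, hσ⟩ := hr (fun j e => (L (y e j)).primeFactors.card)
    (fun j e => hLω _ (hyV e j))
    (fun j e e' h => by simp only [hyind j e e' h])
  -- the run
  have hGeq : ∀ x ∈ V, q * m + n₂ + x = (n₁ + x) * B x * L x := by
    intro x hx
    obtain ⟨c, hc⟩ := hGq x hx
    obtain ⟨c', hc'⟩ := hGn x hx
    have e1 : q / ((n₁ + x) * B x) = c := by rw [hc]; exact Nat.mul_div_cancel_left _ (hG0 x hx)
    have e2 : (n₂ + x) / ((n₁ + x) * B x) = c' := by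
      rw [hc']; exact Nat.mul_div_cancel_left _ (hG0 x hx)
    simp only [hL, e1, e2]
    rw [add_assoc, hc']
    conv_lhs => rw [hc]
    ring
  let j₀ : Fin k := ⟨0, hk⟩
  have hy0 : y σ j₀ = b σ := by simp [y, j₀]
  have hDdvd : D σ ∣ q * m + n₂ + b σ := by
    have h1 := hGeq (y σ j₀) (hyV σ j₀)
    rw [hy0] at h1
    rw [h1, mul_assoc]
    exact (hn₁D σ).mul_right _
  obtain ⟨t, ht⟩ := hDdvd
  have hDpos : 0 < D σ := Nat.pos_of_ne_zero (hD0 σ)
  have hrun : ∀ j : Fin k, D σ * (t + j) = (n₁ + y σ j) * B (y σ j) * L (y σ j) := by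
    intro j
    rw [← hGeq _ (hyV σ j), mul_add, ← ht]
    simp only [y]; ring
  have hval : ∀ j : Fin k, dv (t + j) * dv (D σ) = (∏ x' ∈ V, dv (n₁ + x')) * 2 ^ R := by
    intro j
    set x := y σ j with hx
    have hxV : x ∈ V := hyV σ j
    have h1 : n₁ + x = n₁ + b σ + j * D σ := by simp only [hx, y]; ring
    have hdvd : D σ ∣ n₁ + x := by
      rw [h1]; exact (hn₁D σ).add (Dvd.intro_left _ rfl)
    obtain ⟨c, hc⟩ := hdvd
    have hc' : (n₁ + x) / D σ = c := by rw [hc]; exact Nat.mul_div_cancel_left _ hDpos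
    have h2 : t + j = c * B x * L x := by
      have h3 := hrun j
      rw [← hx, hc] at h3
      have h4 : D σ * (t + j) = D σ * (c * B x * L x) := by rw [h3]; ring
      exact Nat.eq_of_mul_eq_mul_left hDpos h4
    have hcopL : Nat.Coprime ((n₁ + x) * B x) (L x) := by
      rw [Nat.coprime_iff_gcd_eq_one]
      by_contra hne
      obtain ⟨p, hp, hpd⟩ := Nat.exists_prime_and_dvd hne
      have g1 := hpd.trans (Nat.gcd_dvd_left _ _)
      have g2 := hpd.trans (Nat.gcd_dvd_right _ _)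
      have g3 := hqp x hxV p hp (Or.inr g1)
      have g4 : p ∣ (n₂ + x) / ((n₁ + x) * B x) := (Nat.dvd_add_right (g3.mul_right m)).mp g2
      have g5 := Nat.dvd_gcd g3 g4
      rw [hcopq x hxV] at g5
      exact hp.one_lt.ne' (Nat.dvd_one.mp g5)
    have hcop1 : Nat.Coprime (c * B x) (L x) :=
      Nat.Coprime.coprime_dvd_left (by rw [hc, mul_assoc]; exact Dvd.intro_left _ rfl) hcopL
    have hcop2 : Nat.Coprime c (B x) :=
      Nat.Coprime.coprime_dvd_left (by rw [hc]; exact Dvd.intro_left _ rfl) (hAB x hxV)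
    have h5 : dv (n₁ + x) * 2 ^ r σ j = dv (D σ) * dv c := by
      have := hn₁dv σ j
      rw [← h1, hc'] at this
      exact this
    have h6 := hσ j
    rw [h2, dv_mul hcop1, dv_mul hcop2, dv_squarefree (hLsq x hxV), ← hBdv x hxV, ← h6, pow_add]
    calc dv c * dv (B x) * 2 ^ (L x).primeFactors.card * dv (D σ)
        = (dv (D σ) * dv c) * dv (B x) * 2 ^ (L x).primeFactors.card := by ring
      _ = (dv (n₁ + x) * 2 ^ r σ j) * dv (B x) * 2 ^ (L x).primeFactors.card := by rw [h5]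
      _ = _ := by ring
  have hDdv : 0 < dv (D σ) := by
    rw [dv, Finset.card_pos]
    exact ⟨1, Nat.one_mem_divisors.mpr (hD0 σ)⟩
  have htpos : 0 < t := by
    by_contra hcon
    have h0 : t = 0 := by omega
    have h1 := hrun j₀
    have h2 : D σ * (t + (j₀ : ℕ)) = 0 := by simp [h0, j₀]
    rw [h2] at h1
    have h3 : 0 < (n₁ + y σ j₀) * B (y σ j₀) * L (y σ j₀) :=
      Nat.mul_pos (hG0 _ (hyV σ j₀)) (Nat.pos_of_ne_zero (hLsq _ (hyV σ j₀)).ne_zero)
    omega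
  refine ⟨t, htpos, fun i hi => ?_⟩
  have h1 := hval ⟨i, hi⟩
  have h2 := hval j₀
  have h3 : dv (t + i) * dv (D σ) = dv t * dv (D σ) := by
    have e1 : t + ((j₀ : Fin k) : ℕ) = t := by simp [j₀]
    rw [e1] at h2
    rw [h2]; exact h1
  exact Nat.eq_of_mul_eq_mul_right hDdv h3

end Pool.Agent.Lib.MP_f85a7a_nt
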